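import Mathlib

/-!
Elementary lattice point count used for the local second moment of `q²θ - η`.
-/

set_option autoImplicit false

namespace Pool.Agent.QSq

open Finset

/-- a finite set of integers of diameter `≤ L` has at most `L + 1` elements -/
lemma card_le_of_diam (S : Finset ℤ) (L : ℝ) (hL : 0 ≤ L)
    (h : ∀ x ∈ S, ∀ y ∈ S, x < y → ((y - x : ℤ) : ℝ) ≤ L) : (S.card : ℝ) ≤ L + 1 := by
  rcases S.eq_empty_or_nonempty with rfl | hne
  · simp; linarith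
  have hsub : S ⊆ Icc (S.min' hne) (S.max' hne) := by
    intro x hx
    exact mem_Icc.2 ⟨S.min'_le x hx, S.le_max' x hx⟩
  have hcard := card_le_card hsub
  rw [Int.card_Icc] at hcard
  rcases (S.min'_le_max' hne).eq_or_lt with heq | hlt
  · rw [heq] at hcard
    have : S.card ≤ 1 := by
      have : (S.max' hne + 1 - S.max' hne).toNat = 1 := by simp
      omega
    have h2 : (S.card : ℝ) ≤ 1 := by exact_mod_cast this
    linarith
  · have h1 := h _ (S.min'_mem hne) _ (S.max'_mem hne) hlt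
    have h2 : ((S.card : ℤ) : ℝ) ≤ ((S.max' hne + 1 - S.min' hne : ℤ) : ℝ) := by
      have : (S.card : ℤ) ≤ S.max' hne + 1 - S.min' hne := by omega
      exact_mod_cast this
    push_cast at h1 h2 ⊢
    linarith

/-- for fixed `n ≠ 0`, `v`, `k` the values of `q` are confined to a short interval -/
lemma card_q (N M : ℕ) (hN : 1 ≤ N) (hM : 12 * M ≤ N ^ 2) (n v k : ℤ) (hn : n ≠ 0)
    (S : Finset ℤ)
    (hS : ∀ q ∈ S, (N : ℤ) < q ∧ q ≤ 2 * N ∧ (N : ℤ) < q + v ∧ q + v ≤ 2 * N ∧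
      |k * (v * (2 * q + v)) - n * q ^ 2| < (M:ℤ)) :
    (S.card : ℝ) ≤ 1 + 8 * M / (|(n : ℝ)| * N) := by
  have hNR : (1:ℝ) ≤ N := by exact_mod_cast hN
  have hn1 : (1:ℝ) ≤ |(n:ℝ)| := by
    have : (1:ℤ) ≤ |n| := Int.one_le_abs hn
    exact_mod_cast this
  have hMR : 12 * (M:ℝ) ≤ (N:ℝ) ^ 2 := by exact_mod_cast hM
  have hpos : (0:ℝ) < |(n:ℝ)| * N := by positivity
  have := card_le_of_diam S (8 * M / (|(n : ℝ)| * N)) (by positivity) ?_
  · linarith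
  intro q hq q' hq' hlt
  obtain ⟨h1, h2, h3, h4, h5⟩ := hS q hq
  obtain ⟨h1', h2', h3', h4', h5'⟩ := hS q' hq'
  rw [le_div_iff₀ hpos]
  -- real versions
  have a1 : (N:ℝ) < q := by exact_mod_cast h1
  have a2 : (q:ℝ) ≤ 2 * N := by exact_mod_cast h2
  have a3 : (N:ℝ) < q + v := by exact_mod_cast h3
  have a4 : (q:ℝ) + v ≤ 2 * N := by exact_mod_cast h4
  have a5 : |(k:ℝ) * (v * (2 * q + v)) - n * q ^ 2| < (M:ℝ) := by exact_mod_cast h5
  have b1 : (N:ℝ) < q' := by exact_mod_cast h1'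
  have b5 : |(k:ℝ) * (v * (2 * q' + v)) - n * q' ^ 2| < (M:ℝ) := by exact_mod_cast h5'
  have hltR : (q:ℝ) < q' := by exact_mod_cast hlt
  set g : ℝ := (k:ℝ) * (v * (2 * q + v)) - n * q ^ 2 with hg
  set g' : ℝ := (k:ℝ) * (v * (2 * q' + v)) - n * q' ^ 2 with hg'
  set s : ℝ := 2 * q + v with hs
  have hs2 : 2 * (N:ℝ) < s := by rw [hs]; linarith
  have hspos : 0 < s := by linarith
  -- key identity
  have hid : s * (2 * k * v - n * (q + q')) = 2 * g - n * (q' * s + q * v) := by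
    rw [hg, hs]; ring
  have hB : (N:ℝ) * s / 3 ≤ q' * s + q * v := by
    have c1 : (N:ℝ) * s ≤ q' * s := mul_le_mul_of_nonneg_right b1.le hspos.le
    have c2 : -(2 * (N:ℝ) * s / 3) ≤ q * v := by
      rcases le_or_gt 0 (v:ℝ) with hv | hv
      · have : 0 ≤ (q:ℝ) * v := mul_nonneg (by linarith) hv
        have : 0 ≤ 2 * (N:ℝ) * s / 3 := by positivity
        linarith
      · -- v < 0
        have e1 : 2 * (N:ℝ) * v ≤ q * v := mul_le_mul_of_nonpos_right a2 hv.le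
        have e2 : -(s / 3) ≤ (v:ℝ) := by
          rw [hs]; linarith
        nlinarith
    linarith
  have hlow : |(n:ℝ)| * (N * s / 4) ≤ |s * (2 * k * v - n * (q + q'))| := by
    rw [hid]
    have e1 : |(n:ℝ) * (q' * s + q * v)| - |2 * g| ≤ |2 * g - n * (q' * s + q * v)| := by
      rw [abs_sub_comm (2 * g)]
      exact abs_sub_abs_le_abs_sub _ _
    have e2 : |(n:ℝ)| * (N * s / 3) ≤ |(n:ℝ) * (q' * s + q * v)| := by
      rw [abs_mul]
      have : (N:ℝ) * s / 3 ≤ |q' * s + q * v| := hB.trans (le_abs_self _)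
      exact mul_le_mul_of_nonneg_left this (abs_nonneg _)
    have e3 : |2 * g| ≤ N * s / 12 := by
      rw [abs_mul, abs_two]
      nlinarith
    have e4 : (N:ℝ) * s / 12 ≤ |(n:ℝ)| * (N * s / 12) := by
      have : 0 ≤ (N:ℝ) * s / 12 := by positivity
      nlinarith
    nlinarith
  have hlow2 : |(n:ℝ)| * (N / 4) ≤ |2 * (k:ℝ) * v - n * (q + q')| := by
    rw [abs_mul, abs_of_pos hspos] at hlow
    have : s * (|(n:ℝ)| * (N / 4)) ≤ s * |2 * (k:ℝ) * v - n * (q + q')| := by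
      calc s * (|(n:ℝ)| * (N / 4)) = |(n:ℝ)| * (N * s / 4) := by ring
        _ ≤ _ := hlow
    exact le_of_mul_le_mul_left this hspos
  have hdiff : g' - g = (q' - q) * (2 * k * v - n * (q + q')) := by
    rw [hg, hg']; ring
  have hup : |g' - g| ≤ 2 * M := by
    calc |g' - g| ≤ |g'| + |g| := abs_sub _ _
      _ ≤ M + M := by linarith
      _ = 2 * M := by ring
  rw [hdiff, abs_mul, abs_of_pos (by linarith : (0:ℝ) < q' - q)] at hup
  have h6 : ((q':ℝ) - q) * (|(n:ℝ)| * (N / 4)) ≤ 2 * M :=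
    (mul_le_mul_of_nonneg_left hlow2 (by linarith)).trans hup
  push_cast
  nlinarith

/-- nonzero integers of absolute value at most `x` -/
noncomputable def nzIcc (x : ℝ) : Finset ℤ := (Icc (-⌊x⌋) ⌊x⌋).erase 0

lemma mem_nzIcc {x : ℝ} {k : ℤ} : k ∈ nzIcc x ↔ k ≠ 0 ∧ |(k:ℝ)| ≤ x := by
  unfold nzIcc
  rw [mem_erase, mem_Icc, ← abs_le, Int.le_floor]
  push_cast
  rfl

lemma card_nzIcc (x : ℝ) (hx : 0 ≤ x) : ((nzIcc x).card : ℝ) ≤ 2 * x := by
  unfold nzIcc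
  have hf : 0 ≤ ⌊x⌋ := Int.floor_nonneg.2 hx
  rw [card_erase_of_mem (by rw [mem_Icc]; omega), Int.card_Icc]
  have : (⌊x⌋ + 1 - -⌊x⌋).toNat - 1 = (2 * ⌊x⌋).toNat := by omega
  rw [this]
  have h2 : (((2 * ⌊x⌋).toNat : ℤ) : ℝ) = 2 * (⌊x⌋ : ℝ) := by
    rw [Int.toNat_of_nonneg (by omega)]; push_cast; ring
  have h3 : (((2 * ⌊x⌋).toNat : ℕ) : ℝ) = 2 * (⌊x⌋ : ℝ) := by exact_mod_cast h2
  rw [h3]
  have := Int.floor_le x
  linarith

/-- the fibre over `(v, n)`, `n ≠ 0` -/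
lemma card_fibre (N M : ℕ) (hN : 1 ≤ N) (hM : 12 * M ≤ N ^ 2) (n v : ℤ) (hn : n ≠ 0)
    (hv : v ≠ 0) (S : Finset (ℤ × ℤ))
    (hS : ∀ p ∈ S, p.1 ≠ 0 ∧ (N : ℤ) < p.2 ∧ p.2 ≤ 2 * N ∧ (N : ℤ) < p.2 + v ∧ p.2 + v ≤ 2 * N ∧
      |p.1 * (v * (2 * p.2 + v)) - n * p.2 ^ 2| < (M:ℤ)) :
    (S.card : ℝ) ≤ (6 * |(n:ℝ)| * N + 48 * M) / |(v:ℝ)| := by
  have hNR : (1:ℝ) ≤ N := by exact_mod_cast hN
  have hn1 : (1:ℝ) ≤ |(n:ℝ)| := by
    have : (1:ℤ) ≤ |n| := Int.one_le_abs hn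
    exact_mod_cast this
  have hv1 : (1:ℝ) ≤ |(v:ℝ)| := by
    have : (1:ℤ) ≤ |v| := Int.one_le_abs hv
    exact_mod_cast this
  have hMR : 12 * (M:ℝ) ≤ (N:ℝ) ^ 2 := by exact_mod_cast hM
  set x : ℝ := 3 * |(n:ℝ)| * N / |(v:ℝ)| with hx
  have hx0 : 0 ≤ x := by positivity
  have himg : S.image Prod.fst ⊆ nzIcc x := by
    intro k hk
    rw [mem_image] at hk
    obtain ⟨⟨k', q⟩, hp, rfl⟩ := hk
    obtain ⟨h0, h1, h2, h3, h4, h5⟩ := hS _ hp
    simp only at h0 h1 h2 h3 h4 h5 ⊢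
    rw [mem_nzIcc]
    refine ⟨h0, ?_⟩
    have a1 : (N:ℝ) < q := by exact_mod_cast h1
    have a2 : (q:ℝ) ≤ 2 * N := by exact_mod_cast h2
    have a3 : (N:ℝ) < q + v := by exact_mod_cast h3
    have a5 : |(k':ℝ) * (v * (2 * q + v)) - n * q ^ 2| < (M:ℝ) := by exact_mod_cast h5
    have hs : 2 * (N:ℝ) < 2 * q + v := by linarith
    rw [hx, le_div_iff₀ (by linarith)]
    have e1 : |(k':ℝ) * (v * (2 * q + v))| ≤ M + |(n:ℝ)| * (4 * N ^ 2) := by
      have e2 : |(k':ℝ) * (v * (2 * q + v))| ≤ |(k':ℝ) * (v * (2 * q + v)) - n * q ^ 2|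
          + |(n:ℝ) * q ^ 2| := by
        have := abs_add_le ((k':ℝ) * (v * (2 * q + v)) - n * q ^ 2) ((n:ℝ) * q ^ 2)
        rwa [sub_add_cancel] at this
      have e3 : |(n:ℝ) * q ^ 2| ≤ |(n:ℝ)| * (4 * N ^ 2) := by
        rw [abs_mul, abs_of_nonneg (by positivity : (0:ℝ) ≤ (q:ℝ) ^ 2)]
        apply mul_le_mul_of_nonneg_left _ (abs_nonneg _)
        nlinarith
      linarith
    rw [abs_mul, abs_mul, abs_of_pos (by linarith : (0:ℝ) < 2 * q + v)] at e1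
    have e4 : |(k':ℝ)| * |(v:ℝ)| * (2 * N) ≤ M + |(n:ℝ)| * (4 * N ^ 2) := by
      refine le_trans ?_ e1
      have : 0 ≤ |(k':ℝ)| * |(v:ℝ)| := by positivity
      nlinarith
    have e5 : (M:ℝ) + |(n:ℝ)| * (4 * N ^ 2) ≤ (3 * |(n:ℝ)| * N) * (2 * N) := by
      nlinarith
    have e6 : |(k':ℝ)| * |(v:ℝ)| * (2 * N) ≤ (3 * |(n:ℝ)| * N) * (2 * N) := e4.trans e5
    exact le_of_mul_le_mul_right e6 (by linarith)
  have hsum : (S.card : ℝ) ≤ ∑ k ∈ nzIcc x, (1 + 8 * M / (|(n : ℝ)| * N)) := by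
    have h1 : S.card = ∑ k ∈ nzIcc x, (S.filter (fun p => p.1 = k)).card := by
      refine card_eq_sum_card_fiberwise ?_
      intro p hp
      exact himg (mem_image_of_mem _ hp)
    rw [h1]
    push_cast
    refine sum_le_sum fun k _ => ?_
    have h2 : (S.filter (fun p => p.1 = k)).card = ((S.filter (fun p => p.1 = k)).image Prod.snd).card := by
      rw [card_image_of_injOn]
      intro a ha b hb hab
      simp only [coe_filter, Set.mem_ofPred_eq] at ha hb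
      exact Prod.ext (ha.2.trans hb.2.symm) hab
    rw [h2]
    refine card_q N M hN hM n v k hn _ ?_
    intro q hq
    rw [mem_image] at hq
    obtain ⟨p, hp, rfl⟩ := hq
    rw [mem_filter] at hp
    obtain ⟨hp1, hp2⟩ := hp
    have := hS p hp1
    rw [hp2] at this
    exact this.2
  rw [sum_const, nsmul_eq_mul] at hsum
  have hcard := card_nzIcc x hx0
  have hpos : (0:ℝ) < |(n:ℝ)| * N := by positivity
  calc (S.card : ℝ) ≤ ((nzIcc x).card : ℝ) * (1 + 8 * M / (|(n : ℝ)| * N)) := hsum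
    _ ≤ (2 * x) * (1 + 8 * M / (|(n : ℝ)| * N)) :=
        mul_le_mul_of_nonneg_right hcard (by positivity)
    _ = (6 * |(n:ℝ)| * N + 48 * M) / |(v:ℝ)| := by
        rw [hx]; field_simp; ring

/-- the fibre over `(v, 0)` -/
lemma card_fibre_zero (N M : ℕ) (hN : 1 ≤ N) (v : ℤ)
    (hv : v ≠ 0) (S : Finset (ℤ × ℤ))
    (hS : ∀ p ∈ S, p.1 ≠ 0 ∧ (N : ℤ) < p.2 ∧ p.2 ≤ 2 * N ∧ (N : ℤ) < p.2 + v ∧ p.2 + v ≤ 2 * N ∧
      |p.1 * (v * (2 * p.2 + v))| < (M:ℤ)) :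
    (S.card : ℝ) ≤ M / |(v:ℝ)| := by
  have hNR : (1:ℝ) ≤ N := by exact_mod_cast hN
  have hv1 : (1:ℝ) ≤ |(v:ℝ)| := by
    have : (1:ℤ) ≤ |v| := Int.one_le_abs hv
    exact_mod_cast this
  set x : ℝ := M / (2 * N * |(v:ℝ)|) with hx
  have hx0 : 0 ≤ x := by positivity
  have hsub : S ⊆ nzIcc x ×ˢ (Ioc (N:ℤ) (2 * N)) := by
    rintro ⟨k, q⟩ hp
    obtain ⟨h0, h1, h2, h3, h4, h5⟩ := hS _ hp
    simp only at h0 h1 h2 h3 h4 h5
    rw [mem_product, mem_nzIcc, mem_Ioc]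
    refine ⟨⟨h0, ?_⟩, h1, h2⟩
    have a1 : (N:ℝ) < q := by exact_mod_cast h1
    have a3 : (N:ℝ) < q + v := by exact_mod_cast h3
    have a5 : |(k:ℝ) * (v * (2 * q + v))| < (M:ℝ) := by exact_mod_cast h5
    rw [abs_mul, abs_mul, abs_of_pos (by linarith : (0:ℝ) < 2 * q + v)] at a5
    rw [hx, le_div_iff₀ (by positivity)]
    have : 0 ≤ |(k:ℝ)| * |(v:ℝ)| := by positivity
    simp only
    nlinarith
  have h1 := card_le_card hsub
  rw [card_product, Int.card_Ioc] at h1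
  have h2 : ((2 * (N:ℤ) - N).toNat) = N := by omega
  rw [h2] at h1
  have h3 : (S.card : ℝ) ≤ ((nzIcc x).card : ℝ) * N := by exact_mod_cast h1
  have hcard := card_nzIcc x hx0
  calc (S.card : ℝ) ≤ ((nzIcc x).card : ℝ) * N := h3
    _ ≤ (2 * x) * N := mul_le_mul_of_nonneg_right hcard (by positivity)
    _ = M / |(v:ℝ)| := by rw [hx]; field_simp

/-- sum of `1/|v|` over nonzero `|v| < N` -/
lemma sum_inv_abs (N : ℕ) :
    ∑ v ∈ (Ioo (-(N:ℤ)) N).erase 0, 1 / |(v:ℝ)| ≤ 2 * (1 + Real.log N) := by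
  have hsub : (Ioo (-(N:ℤ)) N).erase 0 ⊆
      ((Icc 1 N).image (fun j : ℕ => (j:ℤ))) ∪ ((Icc 1 N).image (fun j : ℕ => -(j:ℤ))) := by
    intro v hv
    rw [mem_erase, mem_Ioo] at hv
    rw [mem_union, mem_image, mem_image]
    rcases lt_or_gt_of_ne hv.1 with h | h
    · right
      exact ⟨v.natAbs, by rw [mem_Icc]; omega, by omega⟩
    · left
      exact ⟨v.natAbs, by rw [mem_Icc]; omega, by omega⟩
  have hharm : ∑ j ∈ Icc 1 N, 1 / (j:ℝ) ≤ 1 + Real.log N := by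
    have := harmonic_le_one_add_log N
    rw [harmonic_eq_sum_Icc] at this
    push_cast at this
    simpa [one_div] using this
  calc ∑ v ∈ (Ioo (-(N:ℤ)) N).erase 0, 1 / |(v:ℝ)|
      ≤ ∑ v ∈ ((Icc 1 N).image (fun j : ℕ => (j:ℤ))) ∪ ((Icc 1 N).image (fun j : ℕ => -(j:ℤ))),
          1 / |(v:ℝ)| :=
        sum_le_sum_of_subset_of_nonneg hsub (fun _ _ _ => by positivity)
    _ ≤ ∑ v ∈ ((Icc 1 N).image (fun j : ℕ => (j:ℤ))), 1 / |(v:ℝ)|
        + ∑ v ∈ ((Icc 1 N).image (fun j : ℕ => -(j:ℤ))), 1 / |(v:ℝ)| := by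
        rw [← sum_union_inter]
        have : 0 ≤ ∑ v ∈ ((Icc 1 N).image (fun j : ℕ => (j:ℤ))) ∩ ((Icc 1 N).image (fun j : ℕ => -(j:ℤ))),
          1 / |(v:ℝ)| := sum_nonneg fun _ _ => by positivity
        linarith
    _ = ∑ j ∈ Icc 1 N, 1 / (j:ℝ) + ∑ j ∈ Icc 1 N, 1 / (j:ℝ) := by
        rw [sum_image (by intro a _ b _ h; simpa using h),
          sum_image (by intro a _ b _ h; simpa using h)]
        simp
    _ ≤ 2 * (1 + Real.log N) := by linarith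

/-- The quadruples `(v, n, k, q)` with `v ≠ 0`, `k ≠ 0`, `|n| < M'`, `q, q + v ∈ (N, 2N]` and
`|k v (2 q + v) - n q²| < M`. -/
theorem count_bound (N M M' : ℕ) (hN : 1 ≤ N) (hM : 12 * M ≤ N ^ 2)
    (S : Finset ((ℤ × ℤ) × (ℤ × ℤ)))
    (hS : ∀ p ∈ S, p.1.1 ≠ 0 ∧ |p.1.2| < M' ∧ p.2.1 ≠ 0 ∧
      (N : ℤ) < p.2.2 ∧ p.2.2 ≤ 2 * N ∧ (N : ℤ) < p.2.2 + p.1.1 ∧ p.2.2 + p.1.1 ≤ 2 * N ∧
      |p.2.1 * (p.1.1 * (2 * p.2.2 + p.1.1)) - p.1.2 * p.2.2 ^ 2| < (M:ℤ)) :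
    (S.card : ℝ) ≤ 2 * (1 + Real.log N) * (12 * M' ^ 2 * N + 97 * M' * M) := by
  classical
  set P : Finset (ℤ × ℤ) := ((Ioo (-(N:ℤ)) N).erase 0) ×ˢ (Ioo (-(M':ℤ)) M') with hP
  have hmaps : ∀ p ∈ S, p.1 ∈ P := by
    intro p hp
    obtain ⟨h1, h2, h3, h4, h5, h6, h7, h8⟩ := hS p hp
    rw [hP, mem_product, mem_erase, mem_Ioo, mem_Ioo]
    rw [abs_lt] at h2
    refine ⟨⟨h1, ?_, ?_⟩, h2.1, h2.2⟩ <;> omega
  have hcard : S.card = ∑ c ∈ P, (S.filter (fun p => p.1 = c)).card :=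
    card_eq_sum_card_fiberwise hmaps
  have hM'1 : S.Nonempty → 1 ≤ M' := by
    rintro ⟨p, hp⟩
    obtain ⟨h1, h2, -⟩ := hS p hp
    have := abs_nonneg p.1.2
    omega
  rcases S.eq_empty_or_nonempty with rfl | hne
  · rw [card_empty, Nat.cast_zero]
    have : (0:ℝ) ≤ Real.log N := Real.log_natCast_nonneg N
    positivity
  have hM'R : (1:ℝ) ≤ M' := by exact_mod_cast hM'1 hne
  have hfib : ∀ c ∈ P, ((S.filter (fun p => p.1 = c)).card : ℝ) ≤
      (6 * |(c.2:ℝ)| * N + 48 * M + (if c.2 = 0 then (M:ℝ) else 0)) * (1 / |(c.1:ℝ)|) := by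
    rintro ⟨v, n⟩ hc
    rw [hP, mem_product, mem_erase] at hc
    have hv : v ≠ 0 := hc.1.1
    have h2 : (S.filter (fun p => p.1 = (v, n))).card
        = ((S.filter (fun p => p.1 = (v, n))).image Prod.snd).card := by
      rw [card_image_of_injOn]
      intro a ha b hb hab
      simp only [coe_filter, Set.mem_ofPred_eq] at ha hb
      exact Prod.ext (ha.2.trans hb.2.symm) hab
    rw [h2]
    simp only
    by_cases hn : n = 0
    · subst hn
      have := card_fibre_zero N M hN v hv ((S.filter (fun p => p.1 = (v, 0))).image Prod.snd) (by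
        intro p hp
        rw [mem_image] at hp
        obtain ⟨p', hp', rfl⟩ := hp
        rw [mem_filter] at hp'
        obtain ⟨hp1, hp2⟩ := hp'
        have := hS p' hp1
        rw [hp2] at this
        obtain ⟨h1, h2, h3, h4, h5, h6, h7, h8⟩ := this
        refine ⟨h3, h4, h5, h6, h7, ?_⟩
        simpa using h8)
      refine this.trans ?_
      simp only [Int.cast_zero, abs_zero, mul_zero, zero_mul, if_true, zero_add]
      rw [mul_one_div]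
      apply div_le_div_of_nonneg_right _ (abs_nonneg _)
      have : (0:ℝ) ≤ 48 * M := by positivity
      linarith
    · have := card_fibre N M hN hM n v hn hv ((S.filter (fun p => p.1 = (v, n))).image Prod.snd) (by
        intro p hp
        rw [mem_image] at hp
        obtain ⟨p', hp', rfl⟩ := hp
        rw [mem_filter] at hp'
        obtain ⟨hp1, hp2⟩ := hp'
        have := hS p' hp1
        rw [hp2] at this
        obtain ⟨h1, h2, h3, h4, h5, h6, h7, h8⟩ := this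
        exact ⟨h3, h4, h5, h6, h7, h8⟩)
      refine this.trans ?_
      rw [if_neg hn, add_zero, mul_one_div]
  have hsum1 : (S.card : ℝ) ≤ ∑ c ∈ P,
      (6 * |(c.2:ℝ)| * N + 48 * M + (if c.2 = 0 then (M:ℝ) else 0)) * (1 / |(c.1:ℝ)|) := by
    rw [hcard]; push_cast
    exact sum_le_sum hfib
  have hsum2 : ∑ c ∈ P,
      (6 * |(c.2:ℝ)| * N + 48 * M + (if c.2 = 0 then (M:ℝ) else 0)) * (1 / |(c.1:ℝ)|)
      = (∑ n ∈ Ioo (-(M':ℤ)) M', (6 * |(n:ℝ)| * N + 48 * M + (if n = 0 then (M:ℝ) else 0))) *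
        ∑ v ∈ (Ioo (-(N:ℤ)) N).erase 0, 1 / |(v:ℝ)| := by
    rw [hP, sum_product, sum_mul_sum, sum_comm]
  have hsum3 : ∑ n ∈ Ioo (-(M':ℤ)) M', (6 * |(n:ℝ)| * N + 48 * M + (if n = 0 then (M:ℝ) else 0))
      ≤ 12 * M' ^ 2 * N + 97 * M' * M := by
    have hb : ∀ n ∈ Ioo (-(M':ℤ)) M', (6 * |(n:ℝ)| * N + 48 * M + (if n = 0 then (M:ℝ) else 0))
        ≤ (6 * M' * N + 48 * M) + (if n = 0 then (M:ℝ) else 0) := by
      intro n hn
      rw [mem_Ioo] at hn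
      have h1 : |n| < M' := by rw [abs_lt]; exact hn
      have h2 : |(n:ℝ)| ≤ M' := by exact_mod_cast h1.le
      have h3 : (0:ℝ) ≤ N := by positivity
      nlinarith
    refine (sum_le_sum hb).trans ?_
    rw [sum_add_distrib, sum_const, nsmul_eq_mul, Int.card_Ioo]
    have h0 : ∑ n ∈ Ioo (-(M':ℤ)) M', (if n = 0 then (M:ℝ) else 0) ≤ M := by
      rw [sum_ite_eq' (Ioo (-(M':ℤ)) M') 0 (fun _ => (M:ℝ))]
      split_ifs
      · exact le_rfl
      · positivity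
    have h1 : ((((M':ℤ) - -(M':ℤ) - 1).toNat : ℕ) : ℝ) ≤ 2 * M' := by
      have : ((M':ℤ) - -(M':ℤ) - 1).toNat ≤ 2 * M' := by omega
      exact_mod_cast this
    have h2 : (0:ℝ) ≤ 6 * M' * N + 48 * M := by positivity
    have h3 : (M:ℝ) ≤ M' * M := by
      have : (0:ℝ) ≤ M := by positivity
      nlinarith
    calc _ ≤ (2 * (M':ℝ)) * (6 * M' * N + 48 * M) + M := add_le_add
            (mul_le_mul_of_nonneg_right h1 h2) h0
      _ ≤ _ := by nlinarith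
  have hnn : (0:ℝ) ≤ ∑ v ∈ (Ioo (-(N:ℤ)) N).erase 0, 1 / |(v:ℝ)| :=
    sum_nonneg fun _ _ => by positivity
  calc (S.card : ℝ) ≤ _ := hsum1
    _ = _ := hsum2
    _ ≤ (12 * M' ^ 2 * N + 97 * M' * M) * ∑ v ∈ (Ioo (-(N:ℤ)) N).erase 0, 1 / |(v:ℝ)| :=
        mul_le_mul_of_nonneg_right hsum3 hnn
    _ ≤ (12 * M' ^ 2 * N + 97 * M' * M) * (2 * (1 + Real.log N)) :=
        mul_le_mul_of_nonneg_left (sum_inv_abs N) (by positivity)
    _ = _ := by ring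

end Pool.Agent.QSq
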