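import Mathlib
import Pool.Agent.QSq.Count

/-!
Local second moment of `∑ f (q² θ - η)` on the two dimensional torus.
-/

set_option autoImplicit false

namespace Pool.Agent.QSq

open MeasureTheory Finset

/-- the circle `ℝ / ℤ` -/
abbrev T := UnitAddCircle

/-- the character `x ↦ e(n x)` -/
noncomputable def ch (n : ℤ) (x : T) : ℂ := fourier n x

lemma ch_add_left (m n : ℤ) (x : T) : ch (m + n) x = ch m x * ch n x := fourier_add

lemma ch_add_right (n : ℤ) (x y : T) : ch n (x + y) = ch n x * ch n y := by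
  unfold ch
  rw [fourier_apply, fourier_apply, fourier_apply, zsmul_add, AddCircle.toCircle_add,
    Circle.coe_mul]

lemma ch_zero_left (x : T) : ch 0 x = 1 := fourier_zero

lemma ch_zsmul (n b : ℤ) (x : T) : ch n (b • x) = ch (n * b) x := by
  unfold ch
  rw [fourier_apply, fourier_apply, smul_smul]

lemma ch_neg_right (n : ℤ) (x : T) : ch n (-x) = ch (-n) x := by
  unfold ch
  rw [fourier_apply, fourier_apply, neg_zsmul, zsmul_neg]

lemma norm_ch (n : ℤ) (x : T) : ‖ch n x‖ = 1 := Circle.norm_coe _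

lemma continuous_ch (n : ℤ) : Continuous (ch n) := (fourier n).continuous

lemma measurable_ch (n : ℤ) : Measurable (ch n) := (continuous_ch n).measurable

/-- `x ↦ D x + y` preserves the measure -/
lemma mp_affine (D : ℤ) (hD : D ≠ 0) (y : T) :
    MeasurePreserving (fun x : T => D • x + y) (volume : Measure T) volume :=
  (measurePreserving_add_right (volume : Measure T) y).comp
    (Measure.measurePreserving_zsmul (volume : Measure T) hD)

lemma integral_affine {E : Type*} [NormedAddCommGroup E] [NormedSpace ℝ E]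
    (D : ℤ) (hD : D ≠ 0) (y : T) (g : T → E) (hg : AEStronglyMeasurable g (volume : Measure T)) :
    ∫ x : T, g (D • x + y) = ∫ x : T, g x := by
  have h := mp_affine D hD y
  have h2 := integral_map (μ := (volume : Measure T)) (φ := fun x : T => D • x + y)
    h.measurable.aemeasurable (f := g) (by rw [h.map_eq]; exact hg)
  rw [h.map_eq] at h2
  exact h2.symm

/-- orthogonality -/
lemma orth (f : T → ℝ) (hf : Measurable f) (hf0 : ∫ x : T, f x = 0)
    (D : ℤ) (hD : D ≠ 0) (K : ℤ) (y : T) (h : ¬ (D ∣ K ∧ K ≠ 0)) :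
    ∫ x : T, ch K x * ((f (D • x + y) : ℝ) : ℂ) = 0 := by
  by_cases hK : K = 0
  · subst hK
    simp only [ch_zero_left, one_mul]
    rw [integral_affine D hD y (fun x => ((f x : ℝ) : ℂ))
      (Complex.measurable_ofReal.comp hf).aestronglyMeasurable, integral_complex_ofReal, hf0]
    simp
  · have hdvd : ¬ D ∣ K := fun hd => h ⟨hd, hK⟩
    set s : T := (((1:ℝ) / D : ℝ) : T) with hs
    have hDR : (D:ℝ) ≠ 0 := by exact_mod_cast hD
    have hDs : D • s = 0 := by
      rw [hs, ← AddCircle.coe_zsmul, zsmul_eq_mul, mul_one_div, div_self hDR]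
      exact AddCircle.coe_period 1
    have h1 : ∫ x : T, ch K x * ((f (D • x + y) : ℝ) : ℂ)
        = ∫ x : T, ch K (x + s) * ((f (D • (x + s) + y) : ℝ) : ℂ) :=
      (integral_add_right_eq_self (μ := (volume : Measure T))
        (fun x => ch K x * ((f (D • x + y) : ℝ) : ℂ)) s).symm
    have h2 : ∫ x : T, ch K (x + s) * ((f (D • (x + s) + y) : ℝ) : ℂ)
        = ch K s * ∫ x : T, ch K x * ((f (D • x + y) : ℝ) : ℂ) := by
      rw [← integral_const_mul]
      congr 1
      funext x
      rw [zsmul_add, hDs, add_zero, ch_add_right]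
      ring
    rw [h2] at h1
    have hne : ch K s ≠ 1 := by
      intro hone
      unfold ch at hone
      rw [hs, fourier_coe_apply, Complex.exp_eq_one_iff] at hone
      obtain ⟨n, hn⟩ := hone
      apply hdvd
      refine ⟨n, ?_⟩
      have hpi : (2 * (Real.pi : ℂ) * Complex.I) ≠ 0 := Complex.two_pi_I_ne_zero
      have hDC : (D:ℂ) ≠ 0 := by exact_mod_cast hD
      have : (K:ℂ) = D * n := by
        push_cast at hn
        have h3 : 2 * (Real.pi : ℂ) * Complex.I * ((K:ℂ) / D) = 2 * (Real.pi : ℂ) * Complex.I * n := by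
          calc 2 * (Real.pi : ℂ) * Complex.I * ((K:ℂ) / D)
              = 2 * (Real.pi : ℂ) * Complex.I * K * (1 / D) / 1 := by ring
            _ = n * (2 * (Real.pi : ℂ) * Complex.I) := hn
            _ = _ := by ring
        have h4 := mul_left_cancel₀ hpi h3
        field_simp at h4
        exact h4
      exact_mod_cast this
    have h3 : (1 - ch K s) * ∫ x : T, ch K x * ((f (D • x + y) : ℝ) : ℂ) = 0 := by
      linear_combination h1
    rcases mul_eq_zero.1 h3 with h4 | h4
    · exact absurd (sub_eq_zero.1 h4).symm hne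
    · exact h4

lemma integral_ch_ne (K : ℤ) (hK : K ≠ 0) : ∫ x : T, ch K x = 0 := by
  -- translate by `1 / (2K)`
  have h1 : ∫ x : T, ch K x = ∫ x : T, ch K (x + (((1:ℝ) / 2 / K : ℝ) : T)) :=
    (integral_add_right_eq_self (μ := (volume : Measure T)) (fun x => ch K x) _).symm
  have h2 : ∀ x : T, ch K (x + (((1:ℝ) / 2 / K : ℝ) : T)) = - ch K x := by
    intro x
    exact fourier_add_half_inv_index hK one_pos x
  simp_rw [h2] at h1
  rw [integral_neg] at h1
  have : (2:ℂ) * ∫ x : T, ch K x = 0 := by linear_combination h1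
  rcases mul_eq_zero.1 this with h | h
  · norm_num at h
  · exact h

lemma norm_orth_le (f : T → ℝ) (hf : Measurable f) (D : ℤ) (hD : D ≠ 0) (K : ℤ) (y : T) :
    ‖∫ x : T, ch K x * ((f (D • x + y) : ℝ) : ℂ)‖ ≤ ∫ x : T, |f x| := by
  refine (norm_integral_le_integral_norm _).trans (le_of_eq ?_)
  have : ∀ x : T, ‖ch K x * ((f (D • x + y) : ℝ) : ℂ)‖ = |f (D • x + y)| := by
    intro x
    rw [norm_mul, norm_ch, one_mul, Complex.norm_real, Real.norm_eq_abs]
  simp_rw [this]
  exact integral_affine D hD y (fun x => |f x|) (hf.abs.aestronglyMeasurable)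

/-- the basic correlation integrand -/
noncomputable def E (f : T → ℝ) (m n a b : ℤ) (p : T × T) : ℂ :=
  ch m p.1 * ch n p.2 * (((f (a • p.1 - p.2) : ℝ) : ℂ) * ((f (b • p.1 - p.2) : ℝ) : ℂ))

lemma measurable_E (f : T → ℝ) (hf : Measurable f) (m n a b : ℤ) : Measurable (E f m n a b) := by
  unfold E
  have h1 : Measurable (fun p : T × T => a • p.1 - p.2) := by
    apply Continuous.measurable; fun_prop
  have h2 : Measurable (fun p : T × T => b • p.1 - p.2) := by
    apply Continuous.measurable; fun_prop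
  exact (((measurable_ch m).comp measurable_fst).mul ((measurable_ch n).comp measurable_snd)).mul
    ((Complex.measurable_ofReal.comp (hf.comp h1)).mul (Complex.measurable_ofReal.comp (hf.comp h2)))

lemma norm_E_le (f : T → ℝ) (C : ℝ) (hC : ∀ x, |f x| ≤ C) (m n a b : ℤ) (p : T × T) :
    ‖E f m n a b p‖ ≤ C * C := by
  unfold E
  rw [norm_mul, norm_mul, norm_ch, norm_ch, one_mul, one_mul, norm_mul, Complex.norm_real,
    Complex.norm_real, Real.norm_eq_abs, Real.norm_eq_abs]
  exact mul_le_mul (hC _) (hC _) (abs_nonneg _) ((abs_nonneg _).trans (hC (0:T)))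

lemma integrable_E (f : T → ℝ) (hf : Measurable f) (C : ℝ) (hC : ∀ x, |f x| ≤ C) (m n a b : ℤ) :
    Integrable (E f m n a b) (volume : Measure (T × T)) := by
  refine Integrable.of_bound (measurable_E f hf m n a b).aestronglyMeasurable (C * C) ?_
  exact Filter.Eventually.of_forall (norm_E_le f C hC m n a b)

/-- rewriting the correlation integral -/
lemma integral_E_eq (f : T → ℝ) (hf : Measurable f) (C : ℝ) (hC : ∀ x, |f x| ≤ C)
    (m n a b : ℤ) :
    ∫ p : T × T, E f m n a b p = ∫ y : T, ch (-n) y * ((f y : ℝ) : ℂ) *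
      ∫ θ : T, ch (m + n * b) θ * ((f ((a - b) • θ + y) : ℝ) : ℂ) := by
  have h1 : ∫ p : T × T, E f m n a b p = ∫ θ : T, ∫ η : T, E f m n a b (θ, η) :=
    integral_prod _ (integrable_E f hf C hC m n a b)
  rw [h1]
  -- substitute η = b θ - y
  set H : T → T → ℂ := fun θ y => ch (-n) y * ((f y : ℝ) : ℂ) *
      (ch (m + n * b) θ * ((f ((a - b) • θ + y) : ℝ) : ℂ)) with hH
  have h2 : ∀ θ : T, ∫ η : T, E f m n a b (θ, η) = ∫ y : T, H θ y := by
    intro θ
    rw [← integral_sub_left_eq_self (fun η => E f m n a b (θ, η)) (volume : Measure T) (b • θ)]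
    congr 1
    funext y
    simp only [E, hH]
    have e1 : a • θ - (b • θ - y) = (a - b) • θ + y := by
      rw [sub_zsmul]; abel
    have e2 : b • θ - (b • θ - y) = y := by abel
    rw [e1, e2, sub_eq_add_neg (b • θ) y, ch_add_right, ch_zsmul, ch_neg_right, ch_add_left m]
    ring
  simp_rw [h2]
  have hHmeas : Measurable (Function.uncurry H) := by
    have h3 : Measurable (fun p : T × T => (a - b) • p.1 + p.2) := by
      apply Continuous.measurable; fun_prop
    simp only [hH, Function.uncurry_def]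
    exact (((measurable_ch (-n)).comp measurable_snd).mul
      (Complex.measurable_ofReal.comp (hf.comp measurable_snd))).mul
      (((measurable_ch _).comp measurable_fst).mul (Complex.measurable_ofReal.comp (hf.comp h3)))
  have hHint : Integrable (Function.uncurry H) ((volume : Measure T).prod (volume : Measure T)) := by
    refine Integrable.of_bound hHmeas.aestronglyMeasurable (C * C) ?_
    refine Filter.Eventually.of_forall fun p => ?_
    simp only [hH, Function.uncurry_def]
    rw [norm_mul, norm_mul, norm_mul, norm_ch, norm_ch, one_mul, one_mul, Complex.norm_real,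
      Complex.norm_real, Real.norm_eq_abs, Real.norm_eq_abs]
    exact mul_le_mul (hC _) (hC _) (abs_nonneg _) ((abs_nonneg _).trans (hC (0:T)))
  rw [integral_integral_swap hHint]
  congr 1
  funext y
  simp only [hH]
  rw [integral_const_mul]

/-- off-diagonal correlations -/
lemma integral_E_offdiag_zero (f : T → ℝ) (hf : Measurable f) (C : ℝ) (hC : ∀ x, |f x| ≤ C)
    (hf0 : ∫ x : T, f x = 0) (m n a b : ℤ) (hab : a ≠ b)
    (h : ¬ ((a - b) ∣ (m + n * b) ∧ (m + n * b) ≠ 0)) :
    ∫ p : T × T, E f m n a b p = 0 := by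
  rw [integral_E_eq f hf C hC]
  have : ∀ y : T, ∫ θ : T, ch (m + n * b) θ * ((f ((a - b) • θ + y) : ℝ) : ℂ) = 0 := fun y =>
    orth f hf hf0 (a - b) (sub_ne_zero.2 hab) _ y h
  simp [this]

lemma norm_integral_E_offdiag_le (f : T → ℝ) (hf : Measurable f) (C : ℝ) (hC : ∀ x, |f x| ≤ C)
    (A : ℝ) (hA : ∫ x : T, |f x| ≤ A) (m n a b : ℤ) (hab : a ≠ b) :
    ‖∫ p : T × T, E f m n a b p‖ ≤ A ^ 2 := by
  rw [integral_E_eq f hf C hC]
  have hA0 : 0 ≤ A := (integral_nonneg fun x => abs_nonneg (f x)).trans hA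
  have hint : Integrable (fun y : T => |f y|) (volume : Measure T) :=
    Integrable.of_bound hf.abs.aestronglyMeasurable C
      (Filter.Eventually.of_forall fun x => by rw [Real.norm_eq_abs, abs_abs]; exact hC x)
  calc ‖∫ y : T, ch (-n) y * ((f y : ℝ) : ℂ) *
      ∫ θ : T, ch (m + n * b) θ * ((f ((a - b) • θ + y) : ℝ) : ℂ)‖
      ≤ ∫ y : T, |f y| * A := by
        refine norm_integral_le_of_norm_le (hint.mul_const A) (Filter.Eventually.of_forall fun y => ?_)
        rw [norm_mul, norm_mul, norm_ch, one_mul, Complex.norm_real, Real.norm_eq_abs]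
        exact mul_le_mul_of_nonneg_left
          ((norm_orth_le f hf (a - b) (sub_ne_zero.2 hab) _ y).trans hA) (abs_nonneg _)
    _ = (∫ y : T, |f y|) * A := integral_mul_const _ _
    _ ≤ A * A := mul_le_mul_of_nonneg_right hA hA0
    _ = A ^ 2 := by ring

/-- diagonal correlations -/
lemma integral_E_diag (f : T → ℝ) (hf : Measurable f) (C : ℝ) (hC : ∀ x, |f x| ≤ C)
    (m n a : ℤ) (h : m + n * a ≠ 0) :
    ∫ p : T × T, E f m n a a p = 0 := by
  rw [integral_E_eq f hf C hC]
  have : ∀ y : T, ∫ θ : T, ch (m + n * a) θ * ((f ((a - a) • θ + y) : ℝ) : ℂ) = 0 := by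
    intro y
    simp only [sub_self, zero_smul, zero_add]
    rw [integral_mul_const, integral_ch_ne _ h, zero_mul]
  simp_rw [this, mul_zero]
  simp

lemma norm_integral_E_diag_le (f : T → ℝ) (hf : Measurable f) (C : ℝ) (hC : ∀ x, |f x| ≤ C)
    (B : ℝ) (hB : ∫ x : T, (f x) ^ 2 ≤ B) (m n a : ℤ) :
    ‖∫ p : T × T, E f m n a a p‖ ≤ B := by
  rw [integral_E_eq f hf C hC]
  have hint : Integrable (fun y : T => (f y) ^ 2) (volume : Measure T) :=
    Integrable.of_bound (hf.pow_const 2).aestronglyMeasurable (C ^ 2)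
      (Filter.Eventually.of_forall fun x => by
        rw [Real.norm_eq_abs, abs_pow]; exact pow_le_pow_left₀ (abs_nonneg _) (hC x) 2)
  refine le_trans (norm_integral_le_of_norm_le hint (Filter.Eventually.of_forall fun y => ?_)) hB
  simp only [sub_self, zero_smul, zero_add]
  rw [integral_mul_const, norm_mul, norm_mul, norm_ch, one_mul, norm_mul, Complex.norm_real,
    Real.norm_eq_abs]
  have h1 : ‖∫ x : T, ch (m + n * a) x‖ ≤ 1 := by
    refine (norm_integral_le_integral_norm _).trans ?_
    simp only [norm_ch, integral_const, smul_eq_mul, mul_one]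
    rw [Measure.real, UnitAddCircle.measure_univ, ENNReal.toReal_one]
  calc |f y| * (‖∫ x : T, ch (m + n * a) x‖ * |f y|) ≤ |f y| * (1 * |f y|) := by
        apply mul_le_mul_of_nonneg_left _ (abs_nonneg _)
        exact mul_le_mul_of_nonneg_right h1 (abs_nonneg _)
    _ = (f y) ^ 2 := by rw [one_mul, ← sq, sq_abs]

end Pool.Agent.QSq
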