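import Mathlib
import Pool.Agent.QSq.Torus

/-!
Weighted (Fejér) second moment of `∑_{N < q ≤ 2N} f (q² θ - η)` and the resulting bound for the
measure of bad points in a small box.
-/

set_option autoImplicit false

namespace Pool.Agent.QSq

open MeasureTheory Finset

/-- the (unnormalised) Fejér kernel -/
noncomputable def Fej (M : ℕ) (x : T) : ℝ := ‖∑ j ∈ range M, ch j x‖ ^ 2

lemma Fej_nonneg (M : ℕ) (x : T) : 0 ≤ Fej M x := by unfold Fej; positivity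

lemma measurable_Fej (M : ℕ) : Measurable (Fej M) := by
  unfold Fej
  exact ((Finset.measurable_sum (range M) fun j _ => measurable_ch j).norm).pow_const 2

lemma Fej_le (M : ℕ) (x : T) : Fej M x ≤ (M:ℝ) ^ 2 := by
  unfold Fej
  apply pow_le_pow_left₀ (norm_nonneg _)
  calc ‖∑ j ∈ range M, ch j x‖ ≤ ∑ j ∈ range M, ‖ch j x‖ := norm_sum_le _ _
    _ = M := by simp [norm_ch]

lemma Fej_eq (M : ℕ) (x : T) :
    ((Fej M x : ℝ) : ℂ) = ∑ j ∈ range M, ∑ j' ∈ range M, ch ((j:ℤ) - j') x := by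
  unfold Fej
  have h1 : ((‖∑ j ∈ range M, ch j x‖ ^ 2 : ℝ) : ℂ)
      = (∑ j ∈ range M, ch j x) * (starRingEnd ℂ) (∑ j ∈ range M, ch j x) := by
    rw [Complex.mul_conj, Complex.normSq_eq_norm_sq]
  rw [h1, map_sum, sum_mul_sum]
  refine sum_congr rfl fun j _ => sum_congr rfl fun j' _ => ?_
  rw [sub_eq_add_neg, ch_add_left]
  congr 1
  unfold ch
  exact fourier_neg.symm

/-- lower bound for the Fejér kernel near `0` -/
lemma Fej_lower (M : ℕ) (x : T) (hx : ‖x‖ * (8 * M) ≤ 1) : (M:ℝ) ^ 2 / 2 ≤ Fej M x := by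
  induction x using QuotientAddGroup.induction_on with
  | H x =>
  -- reduce to the representative of smallest absolute value
  obtain ⟨y, hy, hyn⟩ : ∃ y : ℝ, ((y : ℝ) : T) = (QuotientAddGroup.mk x : T) ∧
      |y| = ‖(QuotientAddGroup.mk x : T)‖ := by
    refine ⟨x - round x, ?_, ?_⟩
    · have : ((x - round x : ℝ) : T) = (x : T) - ((round x : ℝ) : T) := rfl
      rw [this]
      have h0 : (((round x : ℤ) : ℝ) : T) = 0 := by
        have := AddCircle.coe_period (1:ℝ)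
        have h2 : (((round x : ℤ) : ℝ)) = (round x : ℤ) • (1:ℝ) := by simp
        rw [h2, AddCircle.coe_zsmul, this, smul_zero]
      rw [h0, sub_zero]
    · have := UnitAddCircle.norm_eq (x := x)
      rw [← this]
  rw [← hyn] at hx
  rw [← hy]
  unfold Fej
  have hre : ∀ j ∈ range M, (1:ℝ) / √2 ≤ (ch j (y : T)).re := by
    intro j hj
    have hjM : (j:ℝ) ≤ M := by exact_mod_cast (mem_range.1 hj).le
    unfold ch
    rw [fourier_coe_apply]
    have h1 : (2 * (Real.pi : ℂ) * Complex.I * ((j:ℤ):ℂ) * (y:ℂ) / ((1:ℝ):ℂ))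
        = ((2 * Real.pi * j * y : ℝ) : ℂ) * Complex.I := by
      push_cast; ring
    rw [h1, Complex.exp_ofReal_mul_I_re]
    have h2 : |2 * Real.pi * j * y| ≤ Real.pi / 4 := by
      rw [abs_mul, abs_mul, abs_mul, abs_two, abs_of_pos Real.pi_pos, abs_of_nonneg (by positivity : (0:ℝ) ≤ j)]
      have h3 : (j:ℝ) * |y| ≤ 1 / 8 := by
        have : (j:ℝ) * |y| ≤ M * |y| := mul_le_mul_of_nonneg_right hjM (abs_nonneg _)
        linarith
      have := Real.pi_pos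
      nlinarith
    rw [← Real.cos_abs]
    have h4 : Real.cos (Real.pi / 4) ≤ Real.cos |2 * Real.pi * j * y| :=
      Real.cos_le_cos_of_nonneg_of_le_pi (abs_nonneg _) (by linarith [Real.pi_pos]) h2
    rw [Real.cos_pi_div_four] at h4
    refine le_trans (le_of_eq ?_) h4
    rw [div_eq_div_iff (by positivity) (by norm_num)]
    have := Real.mul_self_sqrt (show (0:ℝ) ≤ 2 by norm_num)
    linarith
  have hsum : (M:ℝ) * (1 / √2) ≤ ‖∑ j ∈ range M, ch j (y : T)‖ := by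
    refine le_trans ?_ (Complex.re_le_norm _)
    rw [Complex.re_sum]
    calc (M:ℝ) * (1 / √2) = ∑ j ∈ range M, (1:ℝ) / √2 := by simp
      _ ≤ _ := sum_le_sum hre
  calc (M:ℝ) ^ 2 / 2 = ((M:ℝ) * (1 / √2)) ^ 2 := by
        rw [mul_pow, div_pow, one_pow, Real.sq_sqrt (by norm_num : (0:ℝ) ≤ 2)]; ring
    _ ≤ _ := pow_le_pow_left₀ (by positivity) hsum 2

/-- the counting sum -/
noncomputable def X (f : T → ℝ) (N : ℕ) (p : T × T) : ℝ :=
  ∑ q ∈ Ioc N (2 * N), f (((q:ℤ) ^ 2) • p.1 - p.2)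

lemma measurable_X (f : T → ℝ) (hf : Measurable f) (N : ℕ) : Measurable (X f N) := by
  unfold X
  refine Finset.measurable_sum _ fun q _ => ?_
  have h1 : Measurable (fun p : T × T => ((q:ℤ) ^ 2) • p.1 - p.2) := by
    apply Continuous.measurable; fun_prop
  exact hf.comp h1

lemma abs_X_le (f : T → ℝ) (C : ℝ) (hC : ∀ x, |f x| ≤ C) (N : ℕ) (p : T × T) :
    |X f N p| ≤ N * C := by
  unfold X
  calc _ ≤ ∑ q ∈ Ioc N (2 * N), |f (((q:ℤ) ^ 2) • p.1 - p.2)| := abs_sum_le_sum_abs _ _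
    _ ≤ ∑ q ∈ Ioc N (2 * N), C := sum_le_sum fun q _ => hC _
    _ = N * C := by
      rw [sum_const, nsmul_eq_mul, Nat.card_Ioc]
      congr 2; omega

/-- index set of the expanded second moment -/
def Idx (N M M' : ℕ) : Finset ((ℕ × ℕ) × (ℕ × ℕ) × (ℕ × ℕ)) :=
  (range M ×ˢ range M) ×ˢ (range M' ×ˢ range M') ×ˢ (Ioc N (2 * N) ×ˢ Ioc N (2 * N))

lemma expand (f : T → ℝ) (N M M' : ℕ) (θ₀ η₀ : T) (p : T × T) :
    ((Fej M (p.1 - θ₀) * Fej M' (p.2 - η₀) * (X f N p) ^ 2 : ℝ) : ℂ)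
      = ∑ i ∈ Idx N M M', (ch ((i.1.1:ℤ) - i.1.2) (-θ₀) * ch ((i.2.1.1:ℤ) - i.2.1.2) (-η₀)) *
        E f ((i.1.1:ℤ) - i.1.2) ((i.2.1.1:ℤ) - i.2.1.2) ((i.2.2.1:ℤ) ^ 2) ((i.2.2.2:ℤ) ^ 2) p := by
  unfold Idx
  rw [sum_product, Complex.ofReal_mul, Complex.ofReal_mul, Fej_eq, Fej_eq]
  have hX : (((X f N p) ^ 2 : ℝ) : ℂ) = ∑ x ∈ Ioc N (2 * N) ×ˢ Ioc N (2 * N),
      (((f (((x.1:ℤ) ^ 2) • p.1 - p.2) : ℝ) : ℂ) * ((f (((x.2:ℤ) ^ 2) • p.1 - p.2) : ℝ) : ℂ)) := by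
    rw [sum_product]
    simp only []
    rw [← sum_mul_sum]
    unfold X
    push_cast
    ring
  rw [hX, ← sum_product', ← sum_product', mul_assoc, sum_mul_sum, ← sum_product', sum_mul_sum]
  refine sum_congr rfl fun a _ => ?_
  refine sum_congr rfl fun b _ => ?_
  simp only [E]
  rw [sub_eq_add_neg p.1 θ₀, sub_eq_add_neg p.2 η₀, ch_add_right, ch_add_right]
  ring

/-- weighted second moment bound -/
theorem second_moment (f : T → ℝ) (hf : Measurable f) (C : ℝ) (hC : ∀ x, |f x| ≤ C)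
    (hf0 : ∫ x : T, f x = 0) (A B : ℝ) (hA : ∫ x : T, |f x| ≤ A) (hB : ∫ x : T, (f x) ^ 2 ≤ B)
    (N M M' : ℕ) (hN : 1 ≤ N) (hM : 12 * M ≤ N ^ 2) (θ₀ η₀ : T) :
    ∫ p : T × T, Fej M (p.1 - θ₀) * Fej M' (p.2 - η₀) * (X f N p) ^ 2
      ≤ M * M' * (N * B + A ^ 2 * (2 * (1 + Real.log N) * (12 * M' ^ 2 * N + 97 * M' * M))) := by
  classical
  have hA0 : 0 ≤ A := (integral_nonneg fun x => abs_nonneg (f x)).trans hA
  have hB0 : 0 ≤ B := (integral_nonneg fun x => sq_nonneg (f x)).trans hB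
  set Z : ℝ := 2 * (1 + Real.log N) * (12 * M' ^ 2 * N + 97 * M' * M) with hZ
  -- condition for non vanishing of off-diagonal terms
  set cond : (ℕ × ℕ) × (ℕ × ℕ) × (ℕ × ℕ) → Prop := fun i =>
    (((i.2.2.1:ℤ) ^ 2 - (i.2.2.2:ℤ) ^ 2) ∣
      (((i.1.1:ℤ) - i.1.2) + ((i.2.1.1:ℤ) - i.2.1.2) * (i.2.2.2:ℤ) ^ 2) ∧
      (((i.1.1:ℤ) - i.1.2) + ((i.2.1.1:ℤ) - i.2.1.2) * (i.2.2.2:ℤ) ^ 2) ≠ 0) with hcond
  set I1 := (Idx N M M').filter (fun i => i.2.2.1 = i.2.2.2 ∧ i.1.1 = i.1.2 ∧ i.2.1.1 = i.2.1.2) with hI1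
  set I2 := (Idx N M M').filter (fun i => i.2.2.1 ≠ i.2.2.2 ∧ cond i) with hI2
  have hmem : ∀ i ∈ Idx N M M', (i.1.1 < M ∧ i.1.2 < M) ∧ (i.2.1.1 < M' ∧ i.2.1.2 < M') ∧
      ((N < i.2.2.1 ∧ i.2.2.1 ≤ 2 * N) ∧ (N < i.2.2.2 ∧ i.2.2.2 ≤ 2 * N)) := by
    intro i hi
    unfold Idx at hi
    simpa only [mem_product, mem_range, mem_Ioc] using hi
  -- termwise bound
  have hterm : ∀ i ∈ Idx N M M', ‖∫ p : T × T, (ch ((i.1.1:ℤ) - i.1.2) (-θ₀) *
        ch ((i.2.1.1:ℤ) - i.2.1.2) (-η₀)) *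
        E f ((i.1.1:ℤ) - i.1.2) ((i.2.1.1:ℤ) - i.2.1.2) ((i.2.2.1:ℤ) ^ 2) ((i.2.2.2:ℤ) ^ 2) p‖
      ≤ (if i ∈ I1 then B else 0) + (if i ∈ I2 then A ^ 2 else 0) := by
    intro i hi
    obtain ⟨⟨m1, m2⟩, ⟨m3, m4⟩, ⟨m5, m6⟩, ⟨m7, m8⟩⟩ := hmem i hi
    rw [integral_const_mul, norm_mul, norm_mul, norm_ch, norm_ch, one_mul, one_mul]
    by_cases hq : i.2.2.1 = i.2.2.2
    · -- diagonal
      by_cases hz : i.1.1 = i.1.2 ∧ i.2.1.1 = i.2.1.2
      · have hi1 : i ∈ I1 := by rw [hI1, mem_filter]; exact ⟨hi, hq, hz.1, hz.2⟩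
        rw [if_pos hi1, hq]
        have h1 := norm_integral_E_diag_le f hf C hC B hB ((i.1.1:ℤ) - i.1.2)
          ((i.2.1.1:ℤ) - i.2.1.2) ((i.2.2.2:ℤ) ^ 2)
        have h2 : (0:ℝ) ≤ (if i ∈ I2 then A ^ 2 else 0) := by split_ifs <;> positivity
        linarith
      · have hne : ((i.1.1:ℤ) - i.1.2) + ((i.2.1.1:ℤ) - i.2.1.2) * (i.2.2.2:ℤ) ^ 2 ≠ 0 := by
          intro h0
          have hqpos : (N:ℤ) ^ 2 < (i.2.2.2:ℤ) ^ 2 := by
            have : (N:ℤ) < i.2.2.2 := by exact_mod_cast m7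
            have : (0:ℤ) ≤ N := by positivity
            nlinarith
          have hMZ : 12 * (M:ℤ) ≤ (N:ℤ) ^ 2 := by exact_mod_cast hM
          by_cases hn : (i.2.1.1:ℤ) - i.2.1.2 = 0
          · rw [hn, zero_mul, add_zero] at h0
            exact hz ⟨by omega, by omega⟩
          · have h1 : (1:ℤ) ≤ |(i.2.1.1:ℤ) - i.2.1.2| := Int.one_le_abs hn
            have h2 : |(i.1.1:ℤ) - i.1.2| < M := by rw [abs_lt]; omega
            have h3 : (i.1.1:ℤ) - i.1.2 = -(((i.2.1.1:ℤ) - i.2.1.2) * (i.2.2.2:ℤ) ^ 2) := by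
              linarith
            rw [h3, abs_neg, abs_mul, abs_of_nonneg (sq_nonneg (i.2.2.2:ℤ))] at h2
            have h4 : (i.2.2.2:ℤ) ^ 2 ≤ |(i.2.1.1:ℤ) - i.2.1.2| * (i.2.2.2:ℤ) ^ 2 := by
              have := sq_nonneg (i.2.2.2:ℤ)
              nlinarith
            have h5 : (0:ℤ) ≤ M := by positivity
            nlinarith
        rw [hq, integral_E_diag f hf C hC _ _ _ hne, norm_zero]
        have h2 : (0:ℝ) ≤ (if i ∈ I2 then A ^ 2 else 0) := by split_ifs <;> positivity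
        have h3 : (0:ℝ) ≤ (if i ∈ I1 then B else 0) := by split_ifs <;> positivity
        linarith
    · have hab : ((i.2.2.1:ℤ) ^ 2) ≠ ((i.2.2.2:ℤ) ^ 2) := by
        intro h
        apply hq
        have h1 : (0:ℤ) ≤ i.2.2.1 := by positivity
        have h2 : (0:ℤ) ≤ i.2.2.2 := by positivity
        have := (sq_eq_sq₀ h1 h2).1 h
        exact_mod_cast this
      have h3 : (0:ℝ) ≤ (if i ∈ I1 then B else 0) := by split_ifs <;> positivity
      by_cases hc : cond i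
      · have hi2 : i ∈ I2 := by rw [hI2, mem_filter]; exact ⟨hi, hq, hc⟩
        rw [if_pos hi2]
        have := norm_integral_E_offdiag_le f hf C hC A hA ((i.1.1:ℤ) - i.1.2)
          ((i.2.1.1:ℤ) - i.2.1.2) _ _ hab
        linarith
      · rw [integral_E_offdiag_zero f hf C hC hf0 _ _ _ _ hab hc, norm_zero]
        have h2 : (0:ℝ) ≤ (if i ∈ I2 then A ^ 2 else 0) := by split_ifs <;> positivity
        linarith
  -- total
  have htot : ∫ p : T × T, Fej M (p.1 - θ₀) * Fej M' (p.2 - η₀) * (X f N p) ^ 2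
      ≤ I1.card * B + I2.card * A ^ 2 := by
    have h1 : ((∫ p : T × T, Fej M (p.1 - θ₀) * Fej M' (p.2 - η₀) * (X f N p) ^ 2 : ℝ) : ℂ)
        = ∑ i ∈ Idx N M M', ∫ p : T × T, (ch ((i.1.1:ℤ) - i.1.2) (-θ₀) *
        ch ((i.2.1.1:ℤ) - i.2.1.2) (-η₀)) *
        E f ((i.1.1:ℤ) - i.1.2) ((i.2.1.1:ℤ) - i.2.1.2) ((i.2.2.1:ℤ) ^ 2) ((i.2.2.2:ℤ) ^ 2) p := by
      rw [← integral_complex_ofReal]
      simp_rw [expand]
      rw [integral_finsetSum]
      intro i _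
      exact (integrable_E f hf C hC _ _ _ _).const_mul _
    have h2 : ‖((∫ p : T × T, Fej M (p.1 - θ₀) * Fej M' (p.2 - η₀) * (X f N p) ^ 2 : ℝ) : ℂ)‖
        ≤ ∑ i ∈ Idx N M M', ((if i ∈ I1 then B else 0) + (if i ∈ I2 then A ^ 2 else 0)) := by
      rw [h1]
      exact (norm_sum_le _ _).trans (sum_le_sum hterm)
    rw [Complex.norm_real, Real.norm_eq_abs] at h2
    refine (le_abs_self _).trans (h2.trans (le_of_eq ?_))
    rw [sum_add_distrib, ← sum_filter, ← sum_filter, sum_const, sum_const, nsmul_eq_mul,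
      nsmul_eq_mul]
    congr 3
    · congr 1
      ext i
      rw [mem_filter, hI1, mem_filter]; tauto
    · congr 1
      ext i
      rw [mem_filter, hI2, mem_filter]; tauto
  -- cardinalities
  have hc1 : (I1.card : ℝ) ≤ M * M' * N := by
    have : I1 ⊆ (range M ×ˢ range M' ×ˢ Ioc N (2 * N)).image
        (fun t : ℕ × ℕ × ℕ => ((t.1, t.1), (t.2.1, t.2.1), (t.2.2, t.2.2))) := by
      intro i hi
      rw [hI1, mem_filter] at hi
      obtain ⟨hi, e1, e2, e3⟩ := hi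
      obtain ⟨⟨m1, m2⟩, ⟨m3, m4⟩, ⟨m5, m6⟩, ⟨m7, m8⟩⟩ := hmem i hi
      rw [mem_image]
      refine ⟨(i.1.2, i.2.1.2, i.2.2.2), ?_, ?_⟩
      · simp only [mem_product, mem_range, mem_Ioc]
        exact ⟨m2, m4, m7, m8⟩
      · refine Prod.ext (Prod.ext e2.symm rfl) (Prod.ext (Prod.ext e3.symm rfl) (Prod.ext e1.symm rfl))
    have h1 := (card_le_card this).trans card_image_le
    rw [card_product, card_product, card_range, card_range, Nat.card_Ioc] at h1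
    have h2 : 2 * N - N = N := by omega
    rw [h2] at h1
    have h3 : (I1.card : ℝ) ≤ ((M * (M' * N) : ℕ) : ℝ) := by exact_mod_cast h1
    push_cast at h3
    linarith
  have hc2 : (I2.card : ℝ) ≤ M * M' * Z := by
    set ψ : (ℕ × ℕ) × (ℕ × ℕ) × (ℕ × ℕ) → (ℤ × ℤ) × (ℤ × ℤ) := fun i =>
      (((i.2.2.1:ℤ) - i.2.2.2, (i.2.1.1:ℤ) - i.2.1.2),
        ((((i.1.1:ℤ) - i.1.2) + ((i.2.1.1:ℤ) - i.2.1.2) * (i.2.2.2:ℤ) ^ 2) /
          ((i.2.2.1:ℤ) ^ 2 - (i.2.2.2:ℤ) ^ 2), (i.2.2.2:ℤ))) with hψ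
    have hkey : ∀ i ∈ I2, (((i.2.2.1:ℤ) ^ 2 - (i.2.2.2:ℤ) ^ 2) * (ψ i).2.1
        = ((i.1.1:ℤ) - i.1.2) + ((i.2.1.1:ℤ) - i.2.1.2) * (i.2.2.2:ℤ) ^ 2) := by
      intro i hi
      rw [hI2, mem_filter] at hi
      exact Int.mul_ediv_cancel' hi.2.2.1
    have hcount := count_bound N M M' hN hM (I2.image ψ) (by
      intro p hp
      rw [mem_image] at hp
      obtain ⟨i, hi, rfl⟩ := hp
      have hk := hkey i hi
      have hi' := hi
      rw [hI2, mem_filter] at hi'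
      obtain ⟨hi0, hq, hdvd, hne⟩ := hi'
      obtain ⟨⟨m1, m2⟩, ⟨m3, m4⟩, ⟨m5, m6⟩, ⟨m7, m8⟩⟩ := hmem i hi0
      refine ⟨?_, ?_, ?_, ?_, ?_, ?_, ?_, ?_⟩
      · simp only [hψ]; omega
      · simp only [hψ]; rw [abs_lt]; omega
      · intro h0
        rw [h0, mul_zero] at hk
        exact hne hk.symm
      · simp only [hψ]; omega
      · simp only [hψ]; omega
      · simp only [hψ]; omega
      · simp only [hψ]; omega
      · have e1 : (ψ i).2.1 * ((ψ i).1.1 * (2 * (ψ i).2.2 + (ψ i).1.1))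
            = ((i.2.2.1:ℤ) ^ 2 - (i.2.2.2:ℤ) ^ 2) * (ψ i).2.1 := by
          simp only [hψ]; ring
        rw [e1, hk]
        have e2 : ((i.1.1:ℤ) - i.1.2) + ((i.2.1.1:ℤ) - i.2.1.2) * (i.2.2.2:ℤ) ^ 2
            - (ψ i).1.2 * (ψ i).2.2 ^ 2 = (i.1.1:ℤ) - i.1.2 := by
          simp only [hψ]; ring
        rw [e2, abs_lt]
        omega)
    have hinj : I2.card ≤ (range M ×ˢ range M' ×ˢ I2.image ψ).card := by
      refine card_le_card_of_injOn (fun i => (i.1.2, i.2.1.2, ψ i)) ?_ ?_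
      · intro i hi
        have hi' := hi
        rw [mem_coe, hI2, mem_filter] at hi'
        obtain ⟨⟨m1, m2⟩, ⟨m3, m4⟩, ⟨m5, m6⟩, ⟨m7, m8⟩⟩ := hmem i hi'.1
        rw [mem_coe, mem_product, mem_product, mem_range, mem_range]
        exact ⟨m2, m4, mem_image_of_mem ψ hi⟩
      · intro i hi i' hi' heq
        have hk := hkey i hi
        have hk' := hkey i' hi'
        simp only [Prod.mk.injEq] at heq
        obtain ⟨h1, h2, h3⟩ := heq
        have g1 : (ψ i).1.1 = (ψ i').1.1 := by rw [h3]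
        have g2 : (ψ i).1.2 = (ψ i').1.2 := by rw [h3]
        have g3 : (ψ i).2.1 = (ψ i').2.1 := by rw [h3]
        have g4 : (ψ i).2.2 = (ψ i').2.2 := by rw [h3]
        have r1 : (ψ i).1.1 = (i.2.2.1:ℤ) - i.2.2.2 := rfl
        have r2 : (ψ i).1.2 = (i.2.1.1:ℤ) - i.2.1.2 := rfl
        have r4 : (ψ i).2.2 = (i.2.2.2:ℤ) := rfl
        have r1' : (ψ i').1.1 = (i'.2.2.1:ℤ) - i'.2.2.2 := rfl
        have r2' : (ψ i').1.2 = (i'.2.1.1:ℤ) - i'.2.1.2 := rfl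
        have r4' : (ψ i').2.2 = (i'.2.2.2:ℤ) := rfl
        have q2 : i.2.2.2 = i'.2.2.2 := by omega
        have q1 : i.2.2.1 = i'.2.2.1 := by omega
        have l1 : i.2.1.1 = i'.2.1.1 := by omega
        rw [g3, q1, q2, l1, h2] at hk
        rw [hk] at hk'
        have j1 : i.1.1 = i'.1.1 := by
          have : (i.1.1:ℤ) - i.1.2 = (i'.1.1:ℤ) - i'.1.2 := by linarith
          omega
        exact Prod.ext (Prod.ext j1 h1) (Prod.ext (Prod.ext l1 h2) (Prod.ext q1 q2))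
    rw [card_product, card_product, card_range, card_range] at hinj
    have h1 : (I2.card : ℝ) ≤ M * (M' * ((I2.image ψ).card : ℝ)) := by exact_mod_cast hinj
    calc (I2.card : ℝ) ≤ M * (M' * ((I2.image ψ).card : ℝ)) := h1
      _ ≤ M * (M' * Z) := by gcongr
      _ = M * M' * Z := by ring
  calc _ ≤ I1.card * B + I2.card * A ^ 2 := htot
    _ ≤ (M * M' * N) * B + (M * M' * Z) * A ^ 2 :=
        add_le_add (mul_le_mul_of_nonneg_right hc1 hB0) (mul_le_mul_of_nonneg_right hc2 (sq_nonneg A))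
    _ = _ := by ring

end Pool.Agent.QSq
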