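import Mathlib
import Pool.Agent.QSq.Moment

/-!
Measure of the set of bad points `(θ, η)` in a small box, and the corresponding packing bound.
-/

set_option autoImplicit false

namespace Pool.Agent.QSq

open MeasureTheory Finset

/-- centred indicator function of a ball -/
noncomputable def fr (r : ℝ) (x : T) : ℝ := (Metric.closedBall (0:T) r).indicator 1 x - 2 * r

lemma measurable_fr (r : ℝ) : Measurable (fr r) := by
  unfold fr
  exact (measurable_const.indicator Metric.isClosed_closedBall.measurableSet).sub_const _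

lemma ind_cases (r : ℝ) (x : T) : (Metric.closedBall (0:T) r).indicator (1 : T → ℝ) x = 1 ∨
    (Metric.closedBall (0:T) r).indicator (1 : T → ℝ) x = 0 := by
  by_cases h : x ∈ Metric.closedBall (0:T) r
  · left; rw [Set.indicator_of_mem h]; rfl
  · right; rw [Set.indicator_of_notMem h]

lemma abs_fr_le (r : ℝ) (hr : 0 < r) (hr2 : r ≤ 1 / 2) (x : T) : |fr r x| ≤ 1 := by
  unfold fr
  rw [abs_le]
  rcases ind_cases r x with h | h <;> rw [h] <;> constructor <;> linarith

lemma vol_ball (r : ℝ) (hr2 : r ≤ 1 / 2) (x : T) :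
    (volume (Metric.closedBall x r) : ENNReal) = ENNReal.ofReal (2 * r) := by
  rw [AddCircle.volume_closedBall]
  congr 1
  rw [min_eq_right]; linarith

lemma integral_ind (r : ℝ) (hr : 0 < r) (hr2 : r ≤ 1 / 2) :
    ∫ x : T, (Metric.closedBall (0:T) r).indicator (1 : T → ℝ) x = 2 * r := by
  rw [integral_indicator_one Metric.isClosed_closedBall.measurableSet, Measure.real,
    vol_ball r hr2, ENNReal.toReal_ofReal (by linarith)]

lemma integrable_ind (r : ℝ) :
    Integrable (fun x : T => (Metric.closedBall (0:T) r).indicator (1 : T → ℝ) x) volume := by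
  refine Integrable.of_bound (C := 1) ?_ ?_
  · exact (measurable_const.indicator Metric.isClosed_closedBall.measurableSet).aestronglyMeasurable
  · refine Filter.Eventually.of_forall fun x => ?_
    rcases ind_cases r x with h | h <;> rw [h] <;> simp

lemma vol_real_univ : (volume : Measure T).real Set.univ = 1 := by
  rw [Measure.real, UnitAddCircle.measure_univ, ENNReal.toReal_one]

lemma integral_fr (r : ℝ) (hr : 0 < r) (hr2 : r ≤ 1 / 2) : ∫ x : T, fr r x = 0 := by
  unfold fr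
  rw [integral_sub (integrable_ind r) (integrable_const _), integral_ind r hr hr2, integral_const,
    vol_real_univ]
  simp

lemma integral_abs_fr (r : ℝ) (hr : 0 < r) (hr2 : r ≤ 1 / 2) : ∫ x : T, |fr r x| ≤ 4 * r := by
  have h1 : ∀ x : T, |fr r x| ≤ (Metric.closedBall (0:T) r).indicator (1 : T → ℝ) x + 2 * r := by
    intro x
    unfold fr
    rw [abs_le]
    rcases ind_cases r x with h | h <;> rw [h] <;> constructor <;> linarith
  calc ∫ x : T, |fr r x| ≤ ∫ x : T, ((Metric.closedBall (0:T) r).indicator (1 : T → ℝ) x + 2 * r) := by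
        refine integral_mono ?_ ((integrable_ind r).add (integrable_const _)) h1
        refine Integrable.of_bound (C := 1) (measurable_fr r).abs.aestronglyMeasurable ?_
        exact Filter.Eventually.of_forall fun x => by
          rw [Real.norm_eq_abs, abs_abs]; exact abs_fr_le r hr hr2 x
    _ = 4 * r := by
        rw [integral_add (integrable_ind r) (integrable_const _), integral_ind r hr hr2,
          integral_const, vol_real_univ]
        simp; ring

lemma integral_sq_fr (r : ℝ) (hr : 0 < r) (hr2 : r ≤ 1 / 2) : ∫ x : T, (fr r x) ^ 2 ≤ 2 * r := by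
  have h1 : ∀ x : T, (fr r x) ^ 2
      = (1 - 4 * r) * (Metric.closedBall (0:T) r).indicator (1 : T → ℝ) x + 4 * r ^ 2 := by
    intro x
    unfold fr
    rcases ind_cases r x with h | h <;> rw [h] <;> ring
  simp_rw [h1]
  rw [integral_add ((integrable_ind r).const_mul _) (integrable_const _), integral_const_mul,
    integral_ind r hr hr2, integral_const, vol_real_univ]
  simp only [smul_eq_mul, one_mul]
  nlinarith

/-- bad points -/
def bad (N : ℕ) (r : ℝ) : Set (T × T) :=
  {p | ∀ q ∈ Ioc N (2 * N), r < ‖((q:ℤ) ^ 2) • p.1 - p.2‖}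

lemma measurableSet_bad (N : ℕ) (r : ℝ) : MeasurableSet (bad N r) := by
  have : bad N r = ⋂ q ∈ Ioc N (2 * N), {p : T × T | r < ‖((q:ℤ) ^ 2) • p.1 - p.2‖} := by
    ext p; simp [bad]
  rw [this]
  refine Finset.measurableSet_biInter _ fun q _ => ?_
  refine measurableSet_lt measurable_const ?_
  apply Continuous.measurable; fun_prop

lemma X_bad (N : ℕ) (r : ℝ) (p : T × T) (hp : p ∈ bad N r) : X (fr r) N p = -(2 * r * N) := by
  unfold X
  have : ∀ q ∈ Ioc N (2 * N), fr r (((q:ℤ) ^ 2) • p.1 - p.2) = -(2 * r) := by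
    intro q hq
    unfold fr
    rw [Set.indicator_of_notMem]
    · ring
    · rw [mem_closedBall_zero_iff, not_le]
      exact hp q hq
  rw [sum_congr rfl this, sum_const, nsmul_eq_mul, Nat.card_Ioc]
  have h2 : 2 * N - N = N := by omega
  rw [h2]; ring

/-- box around a point -/
def box (p₀ : T × T) (a b : ℝ) : Set (T × T) := {p | ‖p.1 - p₀.1‖ ≤ a ∧ ‖p.2 - p₀.2‖ ≤ b}

lemma box_eq (p₀ : T × T) (a b : ℝ) :
    box p₀ a b = Metric.closedBall p₀.1 a ×ˢ Metric.closedBall p₀.2 b := by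
  ext p
  simp [box, Metric.mem_closedBall, dist_eq_norm]

lemma measurableSet_box (p₀ : T × T) (a b : ℝ) : MeasurableSet (box p₀ a b) := by
  rw [box_eq]
  exact (Metric.isClosed_closedBall.measurableSet).prod (Metric.isClosed_closedBall.measurableSet)

lemma vol_box (p₀ : T × T) (a b : ℝ) (ha : 0 ≤ a) (hb : 0 ≤ b) (ha2 : a ≤ 1 / 2) (hb2 : b ≤ 1 / 2) :
    (volume : Measure (T × T)).real (box p₀ a b) = 4 * a * b := by
  rw [box_eq, Measure.real, Measure.volume_eq_prod, Measure.prod_prod, vol_ball a ha2, vol_ball b hb2,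
    ENNReal.toReal_mul, ENNReal.toReal_ofReal (by linarith), ENNReal.toReal_ofReal (by linarith)]
  ring

/-- measure of bad points in a small box -/
theorem local_bound (N M M' : ℕ) (hN : 1 ≤ N) (hM1 : 1 ≤ M) (hM'1 : 1 ≤ M') (hM : 12 * M ≤ N ^ 2)
    (r : ℝ) (hr : 0 < r) (hr2 : r ≤ 1 / 2) (p₀ : T × T) (α β : ℝ) (hα : α * (8 * M) ≤ 1)
    (hβ : β * (8 * M') ≤ 1) :
    (volume : Measure (T × T)).real (bad N r ∩ box p₀ α β) ≤
      (2 / (r * N) + 32 * (1 + Real.log N) * (12 * M' ^ 2 * N + 97 * M' * M) / N ^ 2) / (M * M') := by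
  have hNR : (1:ℝ) ≤ N := by exact_mod_cast hN
  have hMR : (1:ℝ) ≤ M := by exact_mod_cast hM1
  have hM'R : (1:ℝ) ≤ M' := by exact_mod_cast hM'1
  set S := bad N r ∩ box p₀ α β with hS
  have hSm : MeasurableSet S := (measurableSet_bad N r).inter (measurableSet_box p₀ α β)
  set g : T × T → ℝ := fun p => Fej M (p.1 - p₀.1) * Fej M' (p.2 - p₀.2) * (X (fr r) N p) ^ 2 with hg
  have hgnn : ∀ p, 0 ≤ g p := fun p =>
    mul_nonneg (mul_nonneg (Fej_nonneg _ _) (Fej_nonneg _ _)) (sq_nonneg _)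
  have hgm : Measurable g := by
    have h1 : Measurable (fun p : T × T => p.1 - p₀.1) := by apply Continuous.measurable; fun_prop
    have h2 : Measurable (fun p : T × T => p.2 - p₀.2) := by apply Continuous.measurable; fun_prop
    exact (((measurable_Fej M).comp h1).mul ((measurable_Fej M').comp h2)).mul
      ((measurable_X (fr r) (measurable_fr r) N).pow_const 2)
  have hgi : Integrable g (volume : Measure (T × T)) := by
    refine Integrable.of_bound hgm.aestronglyMeasurable ((M:ℝ) ^ 2 * (M':ℝ) ^ 2 * ((N:ℝ) * 1) ^ 2) ?_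
    refine Filter.Eventually.of_forall fun p => ?_
    rw [Real.norm_eq_abs, abs_of_nonneg (hgnn p)]
    simp only [hg]
    have h1 := Fej_le M (p.1 - p₀.1)
    have h2 := Fej_le M' (p.2 - p₀.2)
    have h3 : (X (fr r) N p) ^ 2 ≤ ((N:ℝ) * 1) ^ 2 := by
      rw [← sq_abs]
      exact pow_le_pow_left₀ (abs_nonneg _) (abs_X_le (fr r) 1 (abs_fr_le r hr hr2) N p) 2
    exact mul_le_mul (mul_le_mul h1 h2 (Fej_nonneg _ _) (by positivity)) h3 (sq_nonneg _)
      (by positivity)
  have hmom := second_moment (fr r) (measurable_fr r) 1 (abs_fr_le r hr hr2) (integral_fr r hr hr2)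
    (4 * r) (2 * r) (integral_abs_fr r hr hr2) (integral_sq_fr r hr hr2) N M M' hN hM p₀.1 p₀.2
  set c : ℝ := ((M:ℝ) ^ 2 / 2) * ((M':ℝ) ^ 2 / 2) * (2 * r * N) ^ 2 with hc
  have hc0 : 0 < c := by positivity
  have hlow : c * (volume : Measure (T × T)).real S ≤ ∫ p : T × T, g p := by
    have h1 : ∫ p in S, c ≤ ∫ p in S, g p := by
      refine setIntegral_mono_on (integrableOn_const (measure_ne_top _ _)) hgi.integrableOn hSm ?_
      intro p hp
      have hb := X_bad N r p hp.1
      simp only [hg]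
      rw [hb, neg_sq, hc]
      have h2 : (M:ℝ) ^ 2 / 2 ≤ Fej M (p.1 - p₀.1) := by
        apply Fej_lower
        have := hp.2.1
        calc ‖p.1 - p₀.1‖ * (8 * M) ≤ α * (8 * M) :=
              mul_le_mul_of_nonneg_right this (by positivity)
          _ ≤ 1 := hα
      have h3 : (M':ℝ) ^ 2 / 2 ≤ Fej M' (p.2 - p₀.2) := by
        apply Fej_lower
        have := hp.2.2
        calc ‖p.2 - p₀.2‖ * (8 * M') ≤ β * (8 * M') :=
              mul_le_mul_of_nonneg_right this (by positivity)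
          _ ≤ 1 := hβ
      exact mul_le_mul_of_nonneg_right (mul_le_mul h2 h3 (by positivity) (Fej_nonneg _ _))
        (sq_nonneg _)
    rw [setIntegral_const, smul_eq_mul] at h1
    calc c * (volume : Measure (T × T)).real S = (volume : Measure (T × T)).real S * c := by ring
      _ ≤ ∫ p in S, g p := h1
      _ ≤ ∫ p : T × T, g p := setIntegral_le_integral hgi (Filter.Eventually.of_forall hgnn)
  have h4 : c * (volume : Measure (T × T)).real S ≤
      M * M' * (N * (2 * r) + (4 * r) ^ 2 * (2 * (1 + Real.log N) * (12 * M' ^ 2 * N + 97 * M' * M))) :=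
    hlow.trans hmom
  have h5 : (volume : Measure (T × T)).real S ≤
      (M * M' * (N * (2 * r) + (4 * r) ^ 2 * (2 * (1 + Real.log N) * (12 * M' ^ 2 * N + 97 * M' * M)))) / c := by
    rw [le_div_iff₀ hc0]; linarith
  refine h5.trans (le_of_eq ?_)
  rw [hc]
  field_simp
  ring

/-- bad points are stable under small perturbations -/
lemma bad_thick (N : ℕ) (r a b : ℝ) (hb : 4 * (N:ℝ) ^ 2 * a + b ≤ r) (p p' : T × T)
    (hp : p ∈ bad N (2 * r)) (h1 : ‖p'.1 - p.1‖ ≤ a) (h2 : ‖p'.2 - p.2‖ ≤ b) : p' ∈ bad N r := by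
  intro q hq
  have h := hp q hq
  have hqN : (q:ℝ) ≤ 2 * N := by
    have := (mem_Ioc.1 hq).2
    exact_mod_cast this
  have ha0 : 0 ≤ a := (norm_nonneg _).trans h1
  have e : ((q:ℤ) ^ 2) • p.1 - p.2 = (((q:ℤ) ^ 2) • p'.1 - p'.2)
      - (((q:ℤ) ^ 2) • (p'.1 - p.1)) + (p'.2 - p.2) := by
    rw [zsmul_sub]; abel
  have h3 : ‖((q:ℤ) ^ 2) • p.1 - p.2‖ ≤ ‖((q:ℤ) ^ 2) • p'.1 - p'.2‖
      + ‖((q:ℤ) ^ 2) • (p'.1 - p.1)‖ + ‖p'.2 - p.2‖ := by
    rw [e]
    exact (norm_add_le _ _).trans (add_le_add_left (norm_sub_le _ _) _)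
  have h4 : ‖((q:ℤ) ^ 2) • (p'.1 - p.1)‖ ≤ 4 * (N:ℝ) ^ 2 * a := by
    have h5 : ‖((q:ℤ) ^ 2) • (p'.1 - p.1)‖ ≤ ‖((q:ℤ) ^ 2 : ℤ)‖ * ‖p'.1 - p.1‖ := norm_zsmul_le _ _
    have h6 : ‖((q:ℤ) ^ 2 : ℤ)‖ ≤ 4 * (N:ℝ) ^ 2 := by
      rw [Int.norm_eq_abs]
      push_cast
      rw [abs_of_nonneg (by positivity)]
      nlinarith [Nat.cast_nonneg (α := ℝ) q]
    exact h5.trans (mul_le_mul h6 h1 (norm_nonneg _) (by positivity))
  linarith

/-- separated finite sets -/
def Sep (a b : ℝ) (Y : Finset (T × T)) : Prop :=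
  ∀ y ∈ Y, ∀ y' ∈ Y, y ≠ y' → ¬ (‖y.1 - y'.1‖ ≤ 2 * a ∧ ‖y.2 - y'.2‖ ≤ 2 * b)

/-- packing bound in a set -/
lemma packing (a b : ℝ) (ha : 0 ≤ a) (hb : 0 ≤ b) (ha2 : a ≤ 1 / 2) (hb2 : b ≤ 1 / 2)
    (Y : Finset (T × T)) (hY : Sep a b Y) (S : Set (T × T))
    (hsub : ∀ y ∈ Y, box y a b ⊆ S) :
    (Y.card : ℝ) * (4 * a * b) ≤ (volume : Measure (T × T)).real S := by
  have hdisj : Set.PairwiseDisjoint (↑Y : Set (T × T)) (fun y => box y a b) := by
    intro y hy y' hy' hne
    rw [Function.onFun, Set.disjoint_left]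
    rintro p ⟨h1, h2⟩ ⟨h3, h4⟩
    apply hY y hy y' hy' hne
    constructor
    · have : y.1 - y'.1 = (p.1 - y'.1) - (p.1 - y.1) := by abel
      rw [this]
      exact (norm_sub_le _ _).trans (by linarith)
    · have : y.2 - y'.2 = (p.2 - y'.2) - (p.2 - y.2) := by abel
      rw [this]
      exact (norm_sub_le _ _).trans (by linarith)
  have h1 : (volume : Measure (T × T)).real (⋃ y ∈ Y, box y a b) = (Y.card : ℝ) * (4 * a * b) := by
    rw [measureReal_biUnion_finset hdisj (fun y _ => measurableSet_box y a b)]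
    rw [sum_congr rfl (fun y _ => vol_box y a b ha hb ha2 hb2), sum_const, nsmul_eq_mul]
  rw [← h1]
  exact measureReal_mono (Set.iUnion₂_subset hsub) (measure_ne_top _ _)

end Pool.Agent.QSq
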