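import Mathlib
import Pool.Agent.QSq.Local

/-!
Multi-scale packing bound for the points `(θ, η)` that are bad at all scales.
-/

set_option autoImplicit false

namespace Pool.Agent.QSq

open MeasureTheory Finset

noncomputable def aRad (τ : ℝ) (n : ℕ) : ℝ := (n:ℝ) ^ (-τ) / (16 * (n:ℝ) ^ 2)

noncomputable def bRad (τ : ℝ) (n : ℕ) : ℝ := (n:ℝ) ^ (-τ) / 4

lemma aRad_pos (τ : ℝ) (n : ℕ) (hn : 1 ≤ n) : 0 < aRad τ n := by
  unfold aRad
  have : (0:ℝ) < n := by exact_mod_cast hn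
  positivity

lemma bRad_pos (τ : ℝ) (n : ℕ) (hn : 1 ≤ n) : 0 < bRad τ n := by
  unfold bRad
  have : (0:ℝ) < n := by exact_mod_cast hn
  positivity

lemma rpow_neg_le_one (τ : ℝ) (hτ : 0 < τ) (n : ℕ) (hn : 1 ≤ n) : (n:ℝ) ^ (-τ) ≤ 1 :=
  Real.rpow_le_one_of_one_le_of_nonpos (by exact_mod_cast hn) (by linarith)

lemma aRad_le (τ : ℝ) (hτ : 0 < τ) (n : ℕ) (hn : 1 ≤ n) : aRad τ n ≤ 1 / 16 := by
  unfold aRad
  have h1 := rpow_neg_le_one τ hτ n hn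
  have h2 : (1:ℝ) ≤ n := by exact_mod_cast hn
  have h3 : (0:ℝ) ≤ (n:ℝ) ^ (-τ) := by positivity
  rw [div_le_div_iff₀ (by positivity) (by norm_num)]
  nlinarith

lemma bRad_le (τ : ℝ) (hτ : 0 < τ) (n : ℕ) (hn : 1 ≤ n) : bRad τ n ≤ 1 / 4 := by
  unfold bRad
  have h1 := rpow_neg_le_one τ hτ n hn
  linarith

/-- the bad set at scale `n` -/
def badAt (τ : ℝ) (n : ℕ) : Set (T × T) := bad n ((n:ℝ) ^ (-τ))

lemma box_subset (τ : ℝ) (n : ℕ) (hn : 1 ≤ n) (y : T × T) (hy : y ∈ badAt τ n) :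
    box y (aRad τ n) (bRad τ n) ⊆ bad n ((n:ℝ) ^ (-τ) / 2) := by
  intro p hp
  refine bad_thick n ((n:ℝ) ^ (-τ) / 2) (aRad τ n) (bRad τ n) ?_ y p ?_ hp.1 hp.2
  · unfold aRad bRad
    have : (0:ℝ) < n := by exact_mod_cast hn
    have h : 4 * (n:ℝ) ^ 2 * ((n:ℝ) ^ (-τ) / (16 * (n:ℝ) ^ 2)) = (n:ℝ) ^ (-τ) / 4 := by
      field_simp; ring
    rw [h]; linarith
  · have : 2 * ((n:ℝ) ^ (-τ) / 2) = (n:ℝ) ^ (-τ) := by ring
    rw [this]; exact hy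

lemma floor_ge_half (x : ℝ) (hx : 1 ≤ x) : x / 2 ≤ (⌊x⌋₊ : ℝ) := by
  have h1 : x - 1 < ⌊x⌋₊ := Nat.sub_one_lt_floor x
  have h2 : (1:ℝ) ≤ ⌊x⌋₊ := by
    have : 1 ≤ ⌊x⌋₊ := Nat.le_floor (by simpa using hx)
    exact_mod_cast this
  linarith

/-- number of separated bad points near a given point, one scale further -/
lemma one_point (τ : ℝ) (hτ0 : 0 < τ) (hτ1 : τ < 1) (n : ℕ) (hn : 8 ≤ n) (hL : 6 ≤ (n:ℝ) ^ τ)
    (y₀ : T × T) (Y : Finset (T × T)) (hY : Sep (aRad τ (n ^ 2)) (bRad τ (n ^ 2)) Y)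
    (hYb : ∀ y ∈ Y, y ∈ badAt τ (n ^ 2))
    (hcov : ∀ y ∈ Y, ‖y.1 - y₀.1‖ ≤ 2 * aRad τ n ∧ ‖y.2 - y₀.2‖ ≤ 2 * bRad τ n) :
    (Y.card : ℝ) ≤ 223488 * (1 + Real.log ((n:ℝ) ^ 2)) * ((n:ℝ) ^ τ) ^ 4 := by
  have hn1 : 1 ≤ n := by omega
  have hnR : (8:ℝ) ≤ n := by exact_mod_cast hn
  have hn0 : (0:ℝ) < n := by linarith
  set L : ℝ := (n:ℝ) ^ τ with hLdef
  have hL0 : 0 < L := by linarith
  have hLn : L ≤ n := by
    rw [hLdef]
    calc (n:ℝ) ^ τ ≤ (n:ℝ) ^ (1:ℝ) := Real.rpow_le_rpow_of_exponent_le (by linarith) hτ1.le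
      _ = n := Real.rpow_one _
  have hneg : (n:ℝ) ^ (-τ) = 1 / L := by rw [Real.rpow_neg hn0.le, hLdef, one_div]
  have hneg2 : (((n ^ 2 : ℕ) : ℝ)) ^ (-τ) = 1 / L ^ 2 := by
    push_cast
    rw [← Real.rpow_natCast (n:ℝ) 2, ← Real.rpow_mul hn0.le]
    have : ((2:ℕ):ℝ) * -τ = -τ * ((2:ℕ):ℝ) := by ring
    rw [this, Real.rpow_mul hn0.le, hneg, Real.rpow_natCast]
    rw [div_pow, one_pow]
  have ha0 : aRad τ n = 1 / (16 * (n:ℝ) ^ 2 * L) := by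
    unfold aRad; rw [hneg]; field_simp
  have hb0 : bRad τ n = 1 / (4 * L) := by
    unfold bRad; rw [hneg]; field_simp
  have ha : aRad τ (n ^ 2) = 1 / (16 * (n:ℝ) ^ 4 * L ^ 2) := by
    unfold aRad; rw [hneg2]; push_cast; field_simp
  have hb : bRad τ (n ^ 2) = 1 / (4 * L ^ 2) := by
    unfold bRad; rw [hneg2]; field_simp
  set x : ℝ := 2 / 3 * (n:ℝ) ^ 2 * L with hx
  set x' : ℝ := L / 6 with hx'
  have hx1 : 1 ≤ x := by rw [hx]; nlinarith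
  have hx'1 : 1 ≤ x' := by rw [hx']; linarith
  set M := ⌊x⌋₊ with hM
  set M' := ⌊x'⌋₊ with hM'
  have hMx : (M:ℝ) ≤ x := Nat.floor_le (by linarith)
  have hM'x : (M':ℝ) ≤ x' := Nat.floor_le (by linarith)
  have hMlow : x / 2 ≤ M := floor_ge_half x hx1
  have hM'low : x' / 2 ≤ M' := floor_ge_half x' hx'1
  have hM1 : 1 ≤ M := Nat.le_floor (by simpa using hx1)
  have hM'1 : 1 ≤ M' := Nat.le_floor (by simpa using hx'1)
  have h12 : 12 * M ≤ (n ^ 2) ^ 2 := by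
    have : (12:ℝ) * M ≤ ((n:ℝ) ^ 2) ^ 2 := by
      calc (12:ℝ) * M ≤ 12 * x := by linarith
        _ = 8 * (n:ℝ) ^ 2 * L := by rw [hx]; ring
        _ ≤ n * (n:ℝ) ^ 2 * n := by
            apply mul_le_mul _ hLn hL0.le (by positivity)
            exact mul_le_mul_of_nonneg_right hnR (by positivity)
        _ = ((n:ℝ) ^ 2) ^ 2 := by ring
    exact_mod_cast this
  set r : ℝ := (((n ^ 2 : ℕ) : ℝ)) ^ (-τ) / 2 with hr
  have hr' : r = 1 / (2 * L ^ 2) := by rw [hr, hneg2]; field_simp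
  have hr0 : 0 < r := by rw [hr']; positivity
  have hr2 : r ≤ 1 / 2 := by
    have := rpow_neg_le_one τ hτ0 (n ^ 2) (Nat.one_le_pow _ _ hn1)
    rw [hr]; linarith
  have haa : aRad τ (n ^ 2) ≤ aRad τ n := by
    rw [ha, ha0]
    apply one_div_le_one_div_of_le (by positivity)
    have h1 : (n:ℝ) ^ 2 ≤ (n:ℝ) ^ 4 := pow_le_pow_right₀ (by linarith) (by norm_num)
    have h2 : L ≤ L ^ 2 := by nlinarith
    calc 16 * (n:ℝ) ^ 2 * L ≤ 16 * (n:ℝ) ^ 4 * L := by nlinarith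
      _ ≤ 16 * (n:ℝ) ^ 4 * L ^ 2 := mul_le_mul_of_nonneg_left h2 (by positivity)
  have hbb : bRad τ (n ^ 2) ≤ bRad τ n := by
    rw [hb, hb0]
    apply one_div_le_one_div_of_le (by positivity)
    nlinarith
  have hα : (3 * aRad τ n) * (8 * M) ≤ 1 := by
    calc (3 * aRad τ n) * (8 * M) ≤ (3 * aRad τ n) * (8 * x) := by
          apply mul_le_mul_of_nonneg_left (by linarith)
          have := aRad_pos τ n hn1
          positivity
      _ = 1 := by rw [ha0, hx]; field_simp; norm_num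
  have hβ : (3 * bRad τ n) * (8 * M') ≤ 1 := by
    calc (3 * bRad τ n) * (8 * M') ≤ (3 * bRad τ n) * (8 * x') := by
          apply mul_le_mul_of_nonneg_left (by linarith)
          have := bRad_pos τ n hn1
          positivity
      _ = 1 := by rw [hb0, hx']; field_simp; norm_num
  have hloc := local_bound (n ^ 2) M M' (Nat.one_le_pow _ _ hn1) hM1 hM'1 h12 r hr0 hr2 y₀
    (3 * aRad τ n) (3 * bRad τ n) hα hβ
  have hpack := packing (aRad τ (n ^ 2)) (bRad τ (n ^ 2))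
    (aRad_pos τ _ (Nat.one_le_pow _ _ hn1)).le (bRad_pos τ _ (Nat.one_le_pow _ _ hn1)).le
    ((aRad_le τ hτ0 _ (Nat.one_le_pow _ _ hn1)).trans (by norm_num))
    ((bRad_le τ hτ0 _ (Nat.one_le_pow _ _ hn1)).trans (by norm_num)) Y hY
    (bad (n ^ 2) r ∩ box y₀ (3 * aRad τ n) (3 * bRad τ n)) (by
      intro y hy p hp
      refine ⟨box_subset τ (n ^ 2) (Nat.one_le_pow _ _ hn1) y (hYb y hy) hp, ?_, ?_⟩
      · have e : p.1 - y₀.1 = (p.1 - y.1) + (y.1 - y₀.1) := by abel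
        rw [e]
        have := (hcov y hy).1
        have := hp.1
        exact (norm_add_le _ _).trans (by linarith)
      · have e : p.2 - y₀.2 = (p.2 - y.2) + (y.2 - y₀.2) := by abel
        rw [e]
        have := (hcov y hy).2
        have := hp.2
        exact (norm_add_le _ _).trans (by linarith))
  have hlog : Real.log (((n ^ 2 : ℕ) : ℝ)) = Real.log ((n:ℝ) ^ 2) := by push_cast; rfl
  rw [hlog] at hloc
  set Λ : ℝ := 1 + Real.log ((n:ℝ) ^ 2) with hΛ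
  have hΛ1 : 1 ≤ Λ := by
    rw [hΛ]
    have : 0 ≤ Real.log ((n:ℝ) ^ 2) := Real.log_nonneg (by nlinarith)
    linarith
  -- numerator bound
  have hnum : 2 / (r * ((n ^ 2 : ℕ) : ℝ)) + 32 * Λ *
      (12 * (M':ℝ) ^ 2 * ((n ^ 2 : ℕ) : ℝ) + 97 * M' * M) / ((n ^ 2 : ℕ) : ℝ) ^ 2
      ≤ 388 * Λ * L ^ 2 / (n:ℝ) ^ 2 := by
    have e1 : 2 / (r * ((n ^ 2 : ℕ) : ℝ)) = 4 * L ^ 2 / (n:ℝ) ^ 2 := by
      rw [hr']; push_cast; field_simp; norm_num
    have e2 : 12 * (M':ℝ) ^ 2 * ((n ^ 2 : ℕ) : ℝ) + 97 * M' * M ≤ 12 * L ^ 2 * (n:ℝ) ^ 2 := by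
      push_cast
      have h1 : (M':ℝ) ^ 2 ≤ x' ^ 2 := pow_le_pow_left₀ (by positivity) hM'x 2
      have h2 : (M':ℝ) * M ≤ x' * x := mul_le_mul hM'x hMx (by positivity) (by linarith)
      calc 12 * (M':ℝ) ^ 2 * (n:ℝ) ^ 2 + 97 * M' * M
          ≤ 12 * x' ^ 2 * (n:ℝ) ^ 2 + 97 * (x' * x) := by
            have : 12 * (M':ℝ) ^ 2 * (n:ℝ) ^ 2 ≤ 12 * x' ^ 2 * (n:ℝ) ^ 2 := by
              apply mul_le_mul_of_nonneg_right _ (by positivity)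
              linarith
            linarith
        _ = (100 / 9) * (L ^ 2 * (n:ℝ) ^ 2) := by rw [hx, hx']; ring
        _ ≤ 12 * L ^ 2 * (n:ℝ) ^ 2 := by
            have : 0 ≤ L ^ 2 * (n:ℝ) ^ 2 := by positivity
            linarith
    have e3 : 32 * Λ * (12 * (M':ℝ) ^ 2 * ((n ^ 2 : ℕ) : ℝ) + 97 * M' * M) / ((n ^ 2 : ℕ) : ℝ) ^ 2
        ≤ 384 * Λ * L ^ 2 / (n:ℝ) ^ 2 := by
      calc _ ≤ 32 * Λ * (12 * L ^ 2 * (n:ℝ) ^ 2) / ((n ^ 2 : ℕ) : ℝ) ^ 2 := by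
            apply div_le_div_of_nonneg_right _ (by positivity)
            exact mul_le_mul_of_nonneg_left e2 (by positivity)
        _ = 384 * Λ * L ^ 2 / (n:ℝ) ^ 2 := by push_cast; field_simp; ring
    rw [e1]
    have e4 : 4 * L ^ 2 / (n:ℝ) ^ 2 ≤ 4 * Λ * L ^ 2 / (n:ℝ) ^ 2 := by
      apply div_le_div_of_nonneg_right _ (by positivity)
      nlinarith [sq_nonneg L]
    calc 4 * L ^ 2 / (n:ℝ) ^ 2 + _ ≤ 4 * Λ * L ^ 2 / (n:ℝ) ^ 2 + 384 * Λ * L ^ 2 / (n:ℝ) ^ 2 :=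
          add_le_add e4 e3
      _ = _ := by ring
  have hden : (n:ℝ) ^ 2 * L ^ 2 / 36 ≤ (M:ℝ) * M' := by
    calc (n:ℝ) ^ 2 * L ^ 2 / 36 = (x / 2) * (x' / 2) := by rw [hx, hx']; ring
      _ ≤ (M:ℝ) * M' := mul_le_mul hMlow hM'low (by linarith) (by positivity)
  have hfinal : (Y.card : ℝ) * (4 * aRad τ (n ^ 2) * bRad τ (n ^ 2))
      ≤ (388 * Λ * L ^ 2 / (n:ℝ) ^ 2) / ((n:ℝ) ^ 2 * L ^ 2 / 36) := by
    refine (hpack.trans hloc).trans ?_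
    have hpos : (0:ℝ) < (n:ℝ) ^ 2 * L ^ 2 / 36 := by positivity
    have hA : (0:ℝ) ≤ 388 * Λ * L ^ 2 / (n:ℝ) ^ 2 := by positivity
    exact div_le_div₀ hA hnum hpos hden
  have e5 : 4 * aRad τ (n ^ 2) * bRad τ (n ^ 2) = 1 / (16 * (n:ℝ) ^ 4 * L ^ 4) := by
    rw [ha, hb]; field_simp
  rw [e5] at hfinal
  have e6 : (388 * Λ * L ^ 2 / (n:ℝ) ^ 2) / ((n:ℝ) ^ 2 * L ^ 2 / 36)
      = (223488 * Λ * L ^ 4) * (1 / (16 * (n:ℝ) ^ 4 * L ^ 4)) := by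
    field_simp
    try norm_num
  rw [e6] at hfinal
  exact le_of_mul_le_mul_right hfinal (by positivity)

/-- one step of the recursion -/
lemma one_step (τ : ℝ) (hτ0 : 0 < τ) (hτ1 : τ < 1) (n : ℕ) (hn : 8 ≤ n) (hL : 6 ≤ (n:ℝ) ^ τ)
    (Y₀ Y : Finset (T × T)) (hY : Sep (aRad τ (n ^ 2)) (bRad τ (n ^ 2)) Y)
    (hYb : ∀ y ∈ Y, y ∈ badAt τ (n ^ 2))
    (hcov : ∀ y ∈ Y, ∃ y₀ ∈ Y₀, ‖y.1 - y₀.1‖ ≤ 2 * aRad τ n ∧ ‖y.2 - y₀.2‖ ≤ 2 * bRad τ n) :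
    (Y.card : ℝ) ≤ Y₀.card * (223488 * (1 + Real.log ((n:ℝ) ^ 2)) * ((n:ℝ) ^ τ) ^ 4) := by
  classical
  have hsub : Y ⊆ Y₀.biUnion (fun y₀ => Y.filter
      (fun y => ‖y.1 - y₀.1‖ ≤ 2 * aRad τ n ∧ ‖y.2 - y₀.2‖ ≤ 2 * bRad τ n)) := by
    intro y hy
    obtain ⟨y₀, h1, h2⟩ := hcov y hy
    rw [mem_biUnion]
    exact ⟨y₀, h1, by rw [mem_filter]; exact ⟨hy, h2⟩⟩
  have h1 : (Y.card : ℝ) ≤ ∑ y₀ ∈ Y₀, ((Y.filter
      (fun y => ‖y.1 - y₀.1‖ ≤ 2 * aRad τ n ∧ ‖y.2 - y₀.2‖ ≤ 2 * bRad τ n)).card : ℝ) := by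
    exact_mod_cast (card_le_card hsub).trans card_biUnion_le
  refine h1.trans ?_
  rw [← nsmul_eq_mul, ← sum_const]
  refine sum_le_sum fun y₀ _ => ?_
  refine one_point τ hτ0 hτ1 n hn hL y₀ _ ?_ ?_ ?_
  · intro y hy y' hy' hne
    rw [mem_filter] at hy hy'
    exact hY y hy.1 y' hy'.1 hne
  · intro y hy
    rw [mem_filter] at hy
    exact hYb y hy.1
  · intro y hy
    rw [mem_filter] at hy
    exact hy.2

/-- the scales -/
def Nk (k : ℕ) : ℕ := 2 ^ (2 ^ k)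

lemma Nk_succ (k : ℕ) : Nk (k + 1) = (Nk k) ^ 2 := by
  unfold Nk; rw [← pow_mul, pow_succ]

lemma Nk_pos (k : ℕ) : 1 ≤ Nk k := Nat.one_le_two_pow

/-- points bad at all scales `s ≤ j ≤ k` -/
def Sk (τ : ℝ) (s k : ℕ) : Set (T × T) := {p | ∀ j, s ≤ j → j ≤ k → p ∈ badAt τ (Nk j)}

lemma packing_univ (τ : ℝ) (hτ0 : 0 < τ) (n : ℕ) (hn : 1 ≤ n) (Y : Finset (T × T))
    (hY : Sep (aRad τ n) (bRad τ n) Y) : (Y.card : ℝ) ≤ 1 / (4 * aRad τ n * bRad τ n) := by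
  have ha := aRad_pos τ n hn
  have hb := bRad_pos τ n hn
  have h := packing (aRad τ n) (bRad τ n) ha.le hb.le
    ((aRad_le τ hτ0 n hn).trans (by norm_num)) ((bRad_le τ hτ0 n hn).trans (by norm_num)) Y hY
    Set.univ (fun _ _ => Set.subset_univ _)
  have h1 : (volume : Measure (T × T)).real Set.univ = 1 := by
    rw [← Set.univ_prod_univ, Measure.real, Measure.volume_eq_prod, Measure.prod_prod,
      UnitAddCircle.measure_univ, one_mul, ENNReal.toReal_one]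
  rw [h1] at h
  rw [le_div_iff₀ (by positivity)]
  exact h

/-- maximal separated subsets -/
lemma exists_maximal (τ : ℝ) (hτ0 : 0 < τ) (n : ℕ) (hn : 1 ≤ n) (S : Set (T × T)) :
    ∃ Y : Finset (T × T), Sep (aRad τ n) (bRad τ n) Y ∧ (∀ y ∈ Y, y ∈ S) ∧
      ∀ p ∈ S, ∃ y ∈ Y, ‖p.1 - y.1‖ ≤ 2 * aRad τ n ∧ ‖p.2 - y.2‖ ≤ 2 * bRad τ n := by
  classical
  set P : ℕ → Prop := fun m => ∃ Y : Finset (T × T), Sep (aRad τ n) (bRad τ n) Y ∧
    (∀ y ∈ Y, y ∈ S) ∧ Y.card = m with hP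
  have hP0 : P 0 := ⟨∅, by intro y hy; simp at hy, by simp, rfl⟩
  set B : ℕ := ⌊1 / (4 * aRad τ n * bRad τ n)⌋₊ with hB
  have hbd : ∀ m, P m → m ≤ B := by
    rintro m ⟨Y, hY, -, rfl⟩
    exact Nat.le_floor (packing_univ τ hτ0 n hn Y hY)
  obtain ⟨Y, hY, hYS, hYc⟩ : P (Nat.findGreatest P B) :=
    Nat.findGreatest_spec (P := P) (Nat.zero_le B) hP0
  refine ⟨Y, hY, hYS, ?_⟩
  intro p hp
  by_contra hcon
  push Not at hcon
  have hpY : p ∉ Y := by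
    intro hpY
    have := hcon p hpY
    have ha := aRad_pos τ n hn
    have hb := bRad_pos τ n hn
    simp only [sub_self, norm_zero] at this
    have := this (by positivity)
    linarith
  have hP' : P (Y.card + 1) := by
    refine ⟨insert p Y, ?_, ?_, card_insert_of_notMem hpY⟩
    · intro y hy y' hy' hne
      rw [mem_insert] at hy hy'
      rcases hy with rfl | hy
      · rcases hy' with rfl | hy'
        · exact absurd rfl hne
        · rintro ⟨h1, h2⟩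
          exact absurd h2 (not_le.2 (hcon y' hy' h1))
      · rcases hy' with rfl | hy'
        · rintro ⟨h1, h2⟩
          rw [norm_sub_rev] at h1 h2
          exact absurd h2 (not_le.2 (hcon y hy h1))
        · exact hY y hy y' hy' hne
    · intro y hy
      rw [mem_insert] at hy
      rcases hy with rfl | hy
      · exact hp
      · exact hYS y hy
  have h1 := Nat.le_findGreatest (hbd _ hP') hP'
  omega

/-- The packing numbers of the sets `Sk`. -/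
theorem chain (τ τ' : ℝ) (hτ0 : 0 < τ) (hτ1 : τ < 1) (hττ' : τ < τ') :
    ∃ s₀ : ℕ, ∀ s, s₀ ≤ s → ∃ C : ℝ, 0 < C ∧ ∀ k, s ≤ k → ∀ Y : Finset (T × T),
      Sep (aRad τ (Nk k)) (bRad τ (Nk k)) Y → (∀ y ∈ Y, y ∈ Sk τ s k) →
      (Y.card : ℝ) ≤ C * ((Nk k : ℝ) ^ τ') ^ 4 := by
  -- asymptotic inequalities
  have hNt : Filter.Tendsto Nk Filter.atTop Filter.atTop := by
    refine Filter.tendsto_atTop_mono (f := fun k => k) (fun k => ?_) Filter.tendsto_id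
    unfold Nk
    exact (Nat.lt_two_pow_self.trans (Nat.pow_lt_pow_right (by norm_num) Nat.lt_two_pow_self)).le
  have hNtR : Filter.Tendsto (fun k => (Nk k : ℝ)) Filter.atTop Filter.atTop :=
    tendsto_natCast_atTop_atTop.comp hNt
  have e1 : ∀ᶠ k in Filter.atTop, 8 ≤ Nk k := hNt.eventually_ge_atTop 8
  have e2 : ∀ᶠ k in Filter.atTop, 6 ≤ (Nk k : ℝ) ^ τ :=
    ((tendsto_rpow_atTop hτ0).comp hNtR).eventually_ge_atTop 6
  have e3 : ∀ᶠ k in Filter.atTop, 223488 * (1 + Real.log ((Nk k : ℝ) ^ 2))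
      ≤ ((Nk k : ℝ) ^ (τ' - τ)) ^ 4 := by
    have h1 : ∀ᶠ x : ℝ in Filter.atTop, 223488 * (1 + Real.log (x ^ 2)) ≤ (x ^ (τ' - τ)) ^ 4 := by
      set c : ℝ := τ' - τ with hc
      have hc0 : 0 < c := by rw [hc]; linarith
      have h2 := (isLittleO_log_rpow_atTop (r := c) hc0).bound (c := 1 / 1000000) (by norm_num)
      have h3 : ∀ᶠ x : ℝ in Filter.atTop, (1000000:ℝ) ≤ x ^ c :=
        (tendsto_rpow_atTop hc0).eventually_ge_atTop _
      filter_upwards [h2, h3, Filter.eventually_ge_atTop (1:ℝ)] with x h4 h5 h6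
      have hlog : 0 ≤ Real.log x := Real.log_nonneg h6
      have hxc : 0 < x ^ c := by positivity
      rw [Real.norm_eq_abs, Real.norm_eq_abs, abs_of_nonneg hlog, abs_of_pos hxc] at h4
      rw [Real.log_pow]
      push_cast
      have h7 : x ^ c ≤ (x ^ c) ^ 4 := by
        have : (1:ℝ) ≤ (x ^ c) ^ 3 := one_le_pow₀ (by linarith)
        calc x ^ c = x ^ c * 1 := by ring
          _ ≤ x ^ c * (x ^ c) ^ 3 := mul_le_mul_of_nonneg_left this hxc.le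
          _ = _ := by ring
      linarith
    exact hNtR.eventually h1
  obtain ⟨s₀, hs₀⟩ := Filter.eventually_atTop.1 (e1.and (e2.and e3))
  refine ⟨s₀, fun s hs => ?_⟩
  have hNs := Nk_pos s
  refine ⟨1 / (4 * aRad τ (Nk s) * bRad τ (Nk s)), ?_, ?_⟩
  · have ha := aRad_pos τ _ hNs
    have hb := bRad_pos τ _ hNs
    positivity
  set C : ℝ := 1 / (4 * aRad τ (Nk s) * bRad τ (Nk s)) with hC
  have hC0 : 0 < C := by
    have ha := aRad_pos τ _ hNs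
    have hb := bRad_pos τ _ hNs
    positivity
  intro k hk
  induction k, hk using Nat.le_induction with
  | base =>
    intro Y hY _
    have h1 := packing_univ τ hτ0 _ hNs Y hY
    have h2 : (1:ℝ) ≤ ((Nk s : ℝ) ^ τ') ^ 4 := by
      apply one_le_pow₀
      exact Real.one_le_rpow (by exact_mod_cast hNs) (by linarith)
    calc (Y.card : ℝ) ≤ C := h1
      _ = C * 1 := by ring
      _ ≤ _ := mul_le_mul_of_nonneg_left h2 hC0.le
  | succ k hk ih =>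
    intro Y hY hYS
    obtain ⟨h8, h6, h3⟩ := hs₀ k (hs.trans hk)
    obtain ⟨Y₀, hY₀, hY₀S, hmax⟩ := exists_maximal τ hτ0 (Nk k) (Nk_pos k) (Sk τ s k)
    have h1 := ih Y₀ hY₀ hY₀S
    rw [Nk_succ] at hY
    have h2 := one_step τ hτ0 hτ1 (Nk k) h8 h6 Y₀ Y hY (by
      intro y hy
      have := hYS y hy (k + 1) (by omega) le_rfl
      rwa [Nk_succ] at this) (by
      intro y hy
      exact hmax y (fun j hj hj' => hYS y hy j hj (by omega)))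
    set n : ℝ := (Nk k : ℝ) with hn
    have hn1 : (1:ℝ) ≤ n := by rw [hn]; exact_mod_cast Nk_pos k
    have hn0 : (0:ℝ) < n := by linarith
    have e4 : ((Nk (k + 1) : ℝ) ^ τ') ^ 4 = (n ^ τ') ^ 4 * (n ^ τ') ^ 4 := by
      rw [Nk_succ]
      push_cast
      rw [← hn, ← Real.rpow_natCast n 2, ← Real.rpow_mul hn0.le, mul_comm ((2:ℕ):ℝ) τ',
        Real.rpow_mul hn0.le, Real.rpow_natCast]
      ring
    have e5 : (n ^ τ') ^ 4 = (n ^ (τ' - τ)) ^ 4 * (n ^ τ) ^ 4 := by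
      rw [← mul_pow, ← Real.rpow_add hn0]
      congr 2
      ring
    have hlogn : 0 ≤ Real.log (n ^ 2) := Real.log_nonneg (by nlinarith)
    calc (Y.card : ℝ) ≤ Y₀.card * (223488 * (1 + Real.log (n ^ 2)) * (n ^ τ) ^ 4) := h2
      _ ≤ (C * (n ^ τ') ^ 4) * ((n ^ (τ' - τ)) ^ 4 * (n ^ τ) ^ 4) := by
          apply mul_le_mul h1 _ (by positivity) (by positivity)
          exact mul_le_mul_of_nonneg_right h3 (by positivity)
      _ = C * ((n ^ τ') ^ 4 * (n ^ τ') ^ 4) := by rw [← e5]; ring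
      _ = C * ((Nk (k + 1) : ℝ) ^ τ') ^ 4 := by rw [e4]

end Pool.Agent.QSq
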