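import Pool.Agent.QSq.Minorant

/-!
For every irrational `θ`: Hausdorff dimension of the set of exceptional shifts.
-/

set_option autoImplicit false

namespace Pool.Agent.QSq

open MeasureTheory Finset Pool.Agent.ANT

lemma volR_ball (r : ℝ) (hr0 : 0 ≤ r) (hr2 : r ≤ 1 / 2) (x : T) :
    (volume : Measure T).real (Metric.closedBall x r) = 2 * r := by
  rw [Measure.real, vol_ball r hr2 x, ENNReal.toReal_ofReal (by linarith)]

/-- denominators of good approximations are unbounded -/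
lemma exists_approx (θ : ℝ) (hθ : Irrational θ) (K : ℕ) : ∃ r : ℕ, K < r ∧ Approx θ r := by
  -- minimum over k ≤ K
  obtain ⟨μ, hμ0, hμ⟩ : ∃ μ : ℝ, 0 < μ ∧ ∀ k : ℕ, 0 < k → k ≤ K → ∀ m : ℤ, μ ≤ |(k:ℝ) * θ - m| := by
    induction K with
    | zero => exact ⟨1, one_pos, fun k h1 h2 => by omega⟩
    | succ K ih =>
      obtain ⟨μ, hμ0, hμ⟩ := ih
      have hne : ((K + 1 : ℕ) : ℝ) * θ - round (((K + 1 : ℕ) : ℝ) * θ) ≠ 0 := by
        intro h0
        have h1 : Irrational (((K + 1 : ℕ) : ℝ) * θ) := hθ.natCast_mul (by omega)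
        exact h1.ne_int _ (sub_eq_zero.1 h0)
      refine ⟨min μ |((K + 1 : ℕ) : ℝ) * θ - round (((K + 1 : ℕ) : ℝ) * θ)|,
        lt_min hμ0 (abs_pos.2 hne), ?_⟩
      intro k hk1 hk2 m
      rcases Nat.lt_or_ge k (K + 1) with h | h
      · exact (min_le_left _ _).trans (hμ k hk1 (by omega) m)
      · have : k = K + 1 := by omega
        subst this
        exact (min_le_right _ _).trans (round_le _ m)
  obtain ⟨n, hn⟩ := exists_nat_gt (1 / μ)
  have hn0 : 0 < n := by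
    have : (0:ℝ) < n := lt_trans (by positivity) hn
    exact_mod_cast this
  obtain ⟨q, h1, h2⟩ := Real.exists_rat_abs_sub_le_and_den_le θ hn0
  have hd0 : (0:ℝ) < q.den := by exact_mod_cast q.den_pos
  have hdn : (q.den : ℝ) ≤ n := by exact_mod_cast h2
  have hn1 : (0:ℝ) < n + 1 := by positivity
  refine ⟨q.den, ?_, q.den_pos, q.num, ?_, ?_⟩
  · by_contra hcon
    push Not at hcon
    have h3 := hμ q.den q.den_pos hcon q.num
    have h4 : (q.den : ℝ) * θ - q.num = q.den * (θ - q) := by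
      rw [mul_sub]
      congr 1
      have : (q:ℝ) = (q.num : ℝ) / q.den := by exact_mod_cast (Rat.num_div_den q).symm
      rw [this]; field_simp
    rw [h4, abs_mul, abs_of_pos hd0] at h3
    have h5 : (q.den : ℝ) * |θ - q| ≤ 1 / (n + 1) := by
      calc (q.den : ℝ) * |θ - q| ≤ q.den * (1 / ((n + 1) * q.den)) :=
            mul_le_mul_of_nonneg_left h1 hd0.le
        _ = 1 / (n + 1) := by field_simp
    have h6 : 1 / ((n:ℝ) + 1) < μ := by
      rw [div_lt_iff₀ hn1]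
      rw [div_lt_iff₀ hμ0] at hn
      nlinarith
    linarith
  · have := q.reduced
    rw [Int.isCoprime_iff_nat_coprime]
    simpa using this
  · have h3 : (q:ℝ) = (q.num : ℝ) / q.den := by exact_mod_cast (Rat.num_div_den q).symm
    rw [← h3]
    refine h1.trans ?_
    apply one_div_le_one_div_of_le (by positivity)
    nlinarith

/-- packing numbers of the bad set at a denominator -/
theorem pack_bad {τ ε : ℝ} (hτ0 : 0 < τ) (hτ1 : τ < 1) (hε : 0 < ε) : ∃ C : ℝ, 0 < C ∧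
    ∀ (θ : ℝ) (N : ℕ), Approx θ N → ∀ Y : Finset T,
      (∀ y ∈ Y, y ∈ badE θ N ((N:ℝ) ^ (-τ))) →
      (∀ y ∈ Y, ∀ y' ∈ Y, y ≠ y' → (N:ℝ) ^ (-τ) < ‖y - y'‖) →
      (Y.card : ℝ) ≤ C * (N:ℝ) ^ (2 * τ - 1 + 2 * ε) := by
  obtain ⟨C, hC, hW⟩ := weyl_mean hε
  refine ⟨32 * C * 6 ^ (1 + ε), by positivity, ?_⟩
  intro θ N hA Y hYb hYs
  have hN := hA.pos
  have hN1 : (1:ℝ) ≤ N := by exact_mod_cast hN
  have hN0 : (0:ℝ) < N := by linarith
  set δ₀ : ℝ := (N:ℝ) ^ (-τ) with hδ₀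
  have hδ0 : 0 < δ₀ := by positivity
  have hδ1 : δ₀ ≤ 1 := Real.rpow_le_one_of_one_le_of_nonpos hN1 (by linarith)
  set M : ℕ := ⌈2 / δ₀⌉₊ with hM
  have hM2 : 2 / δ₀ ≤ M := Nat.le_ceil _
  have hM3 : (M:ℝ) ≤ 3 / δ₀ := by
    have h1 := (Nat.ceil_lt_add_one (by positivity : 0 ≤ 2 / δ₀)).le
    have h2 : 1 ≤ 1 / δ₀ := by rw [le_div_iff₀ hδ0]; linarith
    have h3 : 3 / δ₀ = 2 / δ₀ + 1 / δ₀ := by ring
    rw [h3]; linarith
  have hMpos : (0:ℝ) < M := lt_of_lt_of_le (by positivity) hM2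
  have hM1 : 1 ≤ M := by exact_mod_cast hMpos
  have hmeas := bad_measure θ N M (δ₀ / 4) hN (by positivity) hM1 (by
    rw [div_le_iff₀ hδ0] at hM2
    linarith)
  rw [show 2 * (δ₀ / 4) = δ₀ / 2 by ring] at hmeas
  have hW2 := hW θ N (2 * M) hA (by omega)
  -- packing
  have hdisj : Set.PairwiseDisjoint (↑Y : Set T) (fun y => Metric.closedBall y (δ₀ / 2)) := by
    intro y hy y' hy' hne
    rw [Function.onFun]
    apply Metric.closedBall_disjoint_closedBall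
    have := hYs y hy y' hy' hne
    rw [dist_eq_norm]
    linarith
  have hsub : (⋃ y ∈ Y, Metric.closedBall y (δ₀ / 2)) ⊆ badE θ N (δ₀ / 2) := by
    intro η hη
    simp only [Set.mem_iUnion, Metric.mem_closedBall] at hη
    obtain ⟨y, hy, hd⟩ := hη
    intro q hq
    have h1 := hYb y hy q hq
    rw [dist_eq_norm] at hd
    have h2 : ((q:ℤ) ^ 2) • ((θ : ℝ) : T) - y = (((q:ℤ) ^ 2) • ((θ : ℝ) : T) - η) + (η - y) := by abel
    rw [h2] at h1
    have h3 := norm_add_le (((q:ℤ) ^ 2) • ((θ : ℝ) : T) - η) (η - y)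
    linarith
  have h1 : (Y.card : ℝ) * δ₀ = (volume : Measure T).real (⋃ y ∈ Y, Metric.closedBall y (δ₀ / 2)) := by
    rw [measureReal_biUnion_finset hdisj (fun y _ => Metric.isClosed_closedBall.measurableSet)]
    rw [sum_congr rfl (fun y _ => volR_ball (δ₀ / 2) (by linarith) (by linarith) y), sum_const, nsmul_eq_mul]
    ring
  have h2 : (volume : Measure T).real (⋃ y ∈ Y, Metric.closedBall y (δ₀ / 2))
      ≤ (volume : Measure T).real (badE θ N (δ₀ / 2)) :=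
    measureReal_mono hsub (measure_ne_top _ _)
  have h3 : (((2 * M : ℕ) : ℝ) * N) ^ (1 + ε) ≤ 6 ^ (1 + ε) * ((N:ℝ) ^ (1 + τ)) ^ (1 + ε) := by
    rw [← Real.mul_rpow (by norm_num) (by positivity)]
    apply Real.rpow_le_rpow (by positivity) _ (by linarith)
    push_cast
    have h4 : (N:ℝ) / δ₀ = (N:ℝ) ^ (1 + τ) := by
      rw [hδ₀, Real.rpow_neg hN0.le, div_inv_eq_mul, Real.rpow_add hN0, Real.rpow_one]
    rw [← h4]
    calc 2 * (M:ℝ) * N ≤ 2 * (3 / δ₀) * N := by gcongr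
      _ = 6 * (N / δ₀) := by ring
  have h5 : (Y.card : ℝ) * δ₀ ≤ 32 / (N:ℝ) ^ 2 * (C * (6 ^ (1 + ε) * ((N:ℝ) ^ (1 + τ)) ^ (1 + ε))) := by
    rw [h1]
    refine h2.trans (hmeas.trans ?_)
    gcongr
    exact hW2.trans (mul_le_mul_of_nonneg_left h3 hC.le)
  have h6 : (Y.card : ℝ) ≤ 32 / (N:ℝ) ^ 2 * (C * (6 ^ (1 + ε) * ((N:ℝ) ^ (1 + τ)) ^ (1 + ε))) / δ₀ := by
    rw [le_div_iff₀ hδ0]; exact h5
  refine h6.trans ?_
  have h7 : 32 / (N:ℝ) ^ 2 * (C * (6 ^ (1 + ε) * ((N:ℝ) ^ (1 + τ)) ^ (1 + ε))) / δ₀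
      = 32 * C * 6 ^ (1 + ε) * (N:ℝ) ^ (2 * τ - 1 + ε * (1 + τ)) := by
    have e1 : (N:ℝ) ^ (2 * τ - 1 + ε * (1 + τ))
        = ((N:ℝ) ^ (1 + τ)) ^ (1 + ε) / (N:ℝ) ^ 2 / δ₀ := by
      rw [hδ₀, ← Real.rpow_mul hN0.le, ← Real.rpow_natCast (N:ℝ) 2, ← Real.rpow_sub hN0,
        ← Real.rpow_sub hN0]
      congr 1
      push_cast
      ring
    rw [e1]
    ring
  rw [h7]
  apply mul_le_mul_of_nonneg_left _ (by positivity)
  apply Real.rpow_le_rpow_of_exponent_le hN1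
  nlinarith

/-- maximal separated subsets -/
lemma exists_maxT (ρ : ℝ) (hρ : 0 < ρ) (hρ2 : ρ ≤ 1) (S : Set T) :
    ∃ Y : Finset T, (∀ y ∈ Y, ∀ y' ∈ Y, y ≠ y' → ρ < ‖y - y'‖) ∧ (∀ y ∈ Y, y ∈ S) ∧
      ∀ p ∈ S, ∃ y ∈ Y, ‖p - y‖ ≤ ρ := by
  classical
  set P : ℕ → Prop := fun m => ∃ Y : Finset T, (∀ y ∈ Y, ∀ y' ∈ Y, y ≠ y' → ρ < ‖y - y'‖) ∧
    (∀ y ∈ Y, y ∈ S) ∧ Y.card = m with hP
  have hP0 : P 0 := ⟨∅, by intro y hy; simp at hy, by simp, rfl⟩
  set B : ℕ := ⌊1 / ρ⌋₊ with hB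
  have hbd : ∀ m, P m → m ≤ B := by
    rintro m ⟨Y, hY, -, rfl⟩
    apply Nat.le_floor
    rw [le_div_iff₀ hρ]
    have hdisj : Set.PairwiseDisjoint (↑Y : Set T) (fun y => Metric.closedBall y (ρ / 2)) := by
      intro y hy y' hy' hne
      rw [Function.onFun]
      apply Metric.closedBall_disjoint_closedBall
      have := hY y hy y' hy' hne
      rw [dist_eq_norm]
      linarith
    have h1 : (Y.card : ℝ) * ρ = (volume : Measure T).real (⋃ y ∈ Y, Metric.closedBall y (ρ / 2)) := by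
      rw [measureReal_biUnion_finset hdisj (fun y _ => Metric.isClosed_closedBall.measurableSet)]
      rw [sum_congr rfl (fun y _ => volR_ball (ρ / 2) (by linarith) (by linarith) y), sum_const, nsmul_eq_mul]
      ring
    rw [h1]
    calc _ ≤ (volume : Measure T).real Set.univ :=
          measureReal_mono (Set.subset_univ _) (measure_ne_top _ _)
      _ = 1 := vol_real_univ
  obtain ⟨Y, hY, hYS, hYc⟩ : P (Nat.findGreatest P B) :=
    Nat.findGreatest_spec (P := P) (Nat.zero_le B) hP0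
  refine ⟨Y, hY, hYS, ?_⟩
  intro p hp
  by_contra hcon
  push Not at hcon
  have hpY : p ∉ Y := by
    intro hpY
    have := hcon p hpY
    simp only [sub_self, norm_zero] at this
    linarith
  have hP' : P (Y.card + 1) := by
    refine ⟨insert p Y, ?_, ?_, card_insert_of_notMem hpY⟩
    · intro y hy y' hy' hne
      rw [mem_insert] at hy hy'
      rcases hy with rfl | hy
      · rcases hy' with rfl | hy'
        · exact absurd rfl hne
        · exact hcon y' hy'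
      · rcases hy' with rfl | hy'
        · rw [norm_sub_rev]; exact hcon y hy
        · exact hY y hy y' hy' hne
    · intro y hy
      rw [mem_insert] at hy
      rcases hy with rfl | hy
      · exact hp
      · exact hYS y hy
  have h1 := Nat.le_findGreatest (hbd _ hP') hP'
  omega

/-- shifts that are bad at all scales from `s` on -/
def Eb (θ τ : ℝ) (s : ℕ) : Set ℝ := {η | ∀ N : ℕ, s ≤ N → 1 ≤ N → ((η : ℝ) : T) ∈ badE θ N ((N:ℝ) ^ (-τ))}

/-- Hausdorff measure of a piece of `Eb` -/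
lemma hausdorff_Eb (θ : ℝ) (hθ : Irrational θ) (τ : ℝ) (hτ0 : 0 < τ) (hτ1 : τ < 1) (σ : ℝ)
    (hσ0 : 0 < σ) (hσ : 2 * τ - 1 < σ * τ) (s : ℕ) (c : ℝ) :
    Measure.hausdorffMeasure σ (Eb θ τ s ∩ Set.Icc c (c + 1 / 2)) = 0 := by
  set ε : ℝ := (σ * τ - (2 * τ - 1)) / 4 with hε
  have hε0 : 0 < ε := by rw [hε]; linarith
  obtain ⟨C, hC0, hC⟩ := pack_bad hτ0 hτ1 hε0
  -- denominators
  choose N hN1 hN2 using fun k : ℕ => exists_approx θ hθ (k + s)
  have hNt : Filter.Tendsto (fun k => (N k : ℝ)) Filter.atTop Filter.atTop := by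
    refine tendsto_natCast_atTop_atTop.comp ?_
    refine Filter.tendsto_atTop_mono (f := fun k => k) (fun k => ?_) Filter.tendsto_id
    have := hN1 k
    omega
  have hNpos : ∀ k, 1 ≤ N k := fun k => (hN2 k).pos
  have hN1R : ∀ k, (1:ℝ) ≤ N k := fun k => by exact_mod_cast hNpos k
  have hd : ∀ k, (0:ℝ) < (N k : ℝ) ^ (-τ) := fun k => by
    have := hN1R k
    positivity
  have hd1 : ∀ k, (N k : ℝ) ^ (-τ) ≤ 1 := fun k =>
    Real.rpow_le_one_of_one_le_of_nonpos (hN1R k) (by linarith)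
  choose Y hY1 hY2 hY3 using fun k : ℕ => exists_maxT ((N k : ℝ) ^ (-τ)) (hd k) (hd1 k)
    (badE θ (N k) ((N k : ℝ) ^ (-τ)))
  set t : ∀ k : ℕ, (Y k) → Set ℝ := fun k y =>
    {η | η ∈ Set.Icc c (c + 1 / 2) ∧ ‖((η : ℝ) : T) - y.1‖ ≤ (N k : ℝ) ^ (-τ)} with ht
  have hdiam : ∀ k, ∀ y : Y k, Metric.ediam (t k y) ≤ ENNReal.ofReal (2 * (N k : ℝ) ^ (-τ)) := by
    intro k y
    refine Metric.ediam_le fun θ hθ θ' hθ' => ?_
    rw [edist_dist]
    apply ENNReal.ofReal_le_ofReal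
    have h1 : |θ - θ'| ≤ 1 / 2 := by
      rw [abs_le]
      have := hθ.1.1
      have := hθ.1.2
      have := hθ'.1.1
      have := hθ'.1.2
      constructor <;> linarith
    have h2 : ‖((θ : ℝ) : T) - ((θ' : ℝ) : T)‖ = |θ - θ'| := by
      have : ((θ : ℝ) : T) - ((θ' : ℝ) : T) = ((θ - θ' : ℝ) : T) := rfl
      rw [this]
      exact (AddCircle.norm_coe_eq_abs_iff (1:ℝ) one_ne_zero).2 (by rw [abs_one]; exact h1)
    rw [Real.dist_eq, ← h2]
    have e : ((θ : ℝ) : T) - ((θ' : ℝ) : T) = (((θ : ℝ) : T) - y.1) - (((θ' : ℝ) : T) - y.1) := by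
      abel
    rw [e]
    refine (norm_sub_le _ _).trans ?_
    have := hθ.2
    have := hθ'.2
    linarith
  have hcover : ∀ k, Eb θ τ s ∩ Set.Icc c (c + 1 / 2) ⊆ ⋃ y, t k y := by
    rintro k η ⟨hη, hηc⟩
    have hbad := hη (N k) (by have := hN1 k; omega) (hNpos k)
    obtain ⟨y, hy, h1⟩ := hY3 k ((η : ℝ) : T) hbad
    rw [Set.mem_iUnion]
    exact ⟨⟨y, hy⟩, hηc, h1⟩
  have hr : Filter.Tendsto (fun k => ENNReal.ofReal (2 * (N k : ℝ) ^ (-τ))) Filter.atTop (nhds 0) := by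
    rw [← ENNReal.ofReal_zero]
    apply ENNReal.tendsto_ofReal
    have h1 : Filter.Tendsto (fun k => (N k : ℝ) ^ (-τ)) Filter.atTop (nhds 0) :=
      (tendsto_rpow_neg_atTop hτ0).comp hNt
    simpa using h1.const_mul 2
  have hle := Measure.hausdorffMeasure_le_liminf_sum σ (Eb θ τ s ∩ Set.Icc c (c + 1 / 2)) _ hr t
    (Filter.Eventually.of_forall hdiam) (Filter.Eventually.of_forall hcover)
  set κ : ℝ := σ * τ - (2 * τ - 1 + 2 * ε) with hκ
  have hκ0 : 0 < κ := by rw [hκ, hε]; linarith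
  have hsum : ∀ k, ∑ y, Metric.ediam (t k y) ^ σ
      ≤ ENNReal.ofReal (C * 2 ^ σ * (N k : ℝ) ^ (-κ)) := by
    intro k
    have hN0 : (0:ℝ) < N k := by have := hN1R k; linarith
    calc ∑ y, Metric.ediam (t k y) ^ σ ≤ ∑ y : Y k, ENNReal.ofReal (2 * (N k : ℝ) ^ (-τ)) ^ σ :=
          sum_le_sum fun y _ => ENNReal.rpow_le_rpow (hdiam k y) hσ0.le
      _ = ENNReal.ofReal ((Y k).card * (2 * (N k : ℝ) ^ (-τ)) ^ σ) := by
          rw [sum_const, card_univ, Fintype.card_coe, nsmul_eq_mul,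
            ENNReal.ofReal_rpow_of_pos (by positivity), ENNReal.ofReal_mul (by positivity),
            ENNReal.ofReal_natCast]
      _ ≤ ENNReal.ofReal (C * 2 ^ σ * (N k : ℝ) ^ (-κ)) := by
          apply ENNReal.ofReal_le_ofReal
          have h1 := hC θ (N k) (hN2 k) (Y k) (hY2 k) (hY1 k)
          rw [Real.mul_rpow (by norm_num) (hd k).le]
          calc ((Y k).card : ℝ) * (2 ^ σ * ((N k : ℝ) ^ (-τ)) ^ σ)
              ≤ (C * (N k : ℝ) ^ (2 * τ - 1 + 2 * ε)) * (2 ^ σ * ((N k : ℝ) ^ (-τ)) ^ σ) :=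
                mul_le_mul_of_nonneg_right h1 (by positivity)
            _ = C * 2 ^ σ * ((N k : ℝ) ^ (2 * τ - 1 + 2 * ε) * ((N k : ℝ) ^ (-τ)) ^ σ) := by ring
            _ = C * 2 ^ σ * (N k : ℝ) ^ (-κ) := by
                congr 1
                rw [← Real.rpow_mul hN0.le, ← Real.rpow_add hN0]
                congr 1
                rw [hκ]; ring
  have hlim : Filter.Tendsto (fun k => ENNReal.ofReal (C * 2 ^ σ * (N k : ℝ) ^ (-κ)))
      Filter.atTop (nhds 0) := by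
    rw [← ENNReal.ofReal_zero]
    apply ENNReal.tendsto_ofReal
    have h1 : Filter.Tendsto (fun k => (N k : ℝ) ^ (-κ)) Filter.atTop (nhds 0) :=
      (tendsto_rpow_neg_atTop hκ0).comp hNt
    simpa using h1.const_mul (C * 2 ^ σ)
  have h0 : Filter.liminf (fun k => ∑ y, Metric.ediam (t k y) ^ σ) Filter.atTop ≤ 0 := by
    calc _ ≤ Filter.liminf (fun k => ENNReal.ofReal (C * 2 ^ σ * (N k : ℝ) ^ (-κ))) Filter.atTop :=
          Filter.liminf_le_liminf (Filter.Eventually.of_forall hsum)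
      _ = 0 := hlim.liminf_eq
  exact le_antisymm (hle.trans h0) zero_le

end Pool.Agent.QSq
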