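import Pool.Agent.Lib.ANT.Geo
import Pool.Agent.Lib.ANT.DivBound

/-!
Mean square of the quadratic Weyl sums `S_h = ∑_{N < q ≤ 2N} e(h q² θ)` over `h ≤ H`, when `N` is a
denominator of a good approximation of `θ`.
-/

set_option autoImplicit false

namespace Pool.Agent.QSq

open Finset Pool.Agent.ANT

/-- the Weyl sum -/
noncomputable def SW (θ : ℝ) (N h : ℕ) : ℂ := ∑ q ∈ Ioc N (2 * N), ee (h * ((q:ℝ) ^ 2 * θ))

lemma SW_sq_eq (θ : ℝ) (N h : ℕ) :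
    ‖SW θ N h‖ ^ 2 = N + 2 * ∑ m ∈ Ico 1 N, ∑ q ∈ Ioc N (2 * N - m),
      (ee (h * (((q + m : ℕ) : ℝ) ^ 2 * θ) - h * ((q:ℝ) ^ 2 * θ))).re := by
  set I := Ioc N (2 * N) with hI
  set c : ℕ → ℕ → ℝ := fun q q' => (ee (h * ((q : ℝ) ^ 2 * θ) - h * ((q':ℝ) ^ 2 * θ))).re with hc
  have hsymm : ∀ q q', c q q' = c q' q := by
    intro q q'
    simp only [hc]
    rw [show (h:ℝ) * ((q':ℝ) ^ 2 * θ) - h * ((q:ℝ) ^ 2 * θ)
      = -(h * ((q:ℝ) ^ 2 * θ) - h * ((q':ℝ) ^ 2 * θ)) by ring, ← conj_ee, Complex.conj_re]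
  have h1 : ‖SW θ N h‖ ^ 2 = ∑ q ∈ I, ∑ q' ∈ I, c q q' := by
    have h2 : ((‖SW θ N h‖ ^ 2 : ℝ) : ℂ) = ∑ q ∈ I, ∑ q' ∈ I,
        ee (h * ((q : ℝ) ^ 2 * θ) - h * ((q':ℝ) ^ 2 * θ)) := by
      have h3 : ((‖SW θ N h‖ ^ 2 : ℝ) : ℂ) = SW θ N h * (starRingEnd ℂ) (SW θ N h) := by
        rw [Complex.mul_conj, Complex.normSq_eq_norm_sq]
      rw [h3]
      unfold SW
      rw [map_sum, sum_mul_sum]
      refine sum_congr rfl fun q _ => sum_congr rfl fun q' _ => ?_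
      rw [conj_ee, ← ee_add, ← sub_eq_add_neg]
    have h4 := congrArg Complex.re h2
    rw [Complex.ofReal_re] at h4
    rw [h4, Complex.re_sum]
    refine sum_congr rfl fun q _ => ?_
    rw [Complex.re_sum]
  have hdiag : ∀ q, c q q = 1 := by
    intro q
    simp only [hc]
    rw [sub_self, ee_zero, Complex.one_re]
  -- for each `q`, split
  have h5 : ∀ q ∈ I, ∑ q' ∈ I, c q q' = 1 + ∑ q' ∈ I.filter (fun q' => q' < q), c q q'
      + ∑ q' ∈ I.filter (fun q' => q < q'), c q q' := by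
    intro q hq
    rw [← sum_filter_add_sum_filter_not I (fun q' => q' < q)]
    rw [← sum_filter_add_sum_filter_not (I.filter (fun q' => ¬ q' < q)) (fun q' => q' = q)]
    have e1 : (I.filter (fun q' => ¬ q' < q)).filter (fun q' => q' = q) = {q} := by
      ext q'
      simp only [mem_filter, mem_singleton]
      constructor
      · rintro ⟨-, h⟩; exact h
      · rintro rfl; exact ⟨⟨hq, lt_irrefl _⟩, rfl⟩
    have e2 : (I.filter (fun q' => ¬ q' < q)).filter (fun q' => ¬ q' = q)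
        = I.filter (fun q' => q < q') := by
      ext q'
      simp only [mem_filter]
      constructor
      · rintro ⟨⟨h1, h2⟩, h3⟩; exact ⟨h1, by omega⟩
      · rintro ⟨h1, h2⟩; exact ⟨⟨h1, by omega⟩, by omega⟩
    rw [e1, e2, sum_singleton, hdiag]
    ring
  rw [h1, sum_congr rfl h5, sum_add_distrib, sum_add_distrib]
  have h6 : ∑ q ∈ I, (1:ℝ) = N := by
    rw [sum_const, nsmul_eq_mul, mul_one, hI, Nat.card_Ioc]
    congr 1
    omega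
  have h7 : ∑ q ∈ I, ∑ q' ∈ I.filter (fun q' => q < q'), c q q'
      = ∑ q ∈ I, ∑ q' ∈ I.filter (fun q' => q' < q), c q q' := by
    simp_rw [sum_filter]
    rw [sum_comm]
    refine sum_congr rfl fun q _ => sum_congr rfl fun q' _ => ?_
    rw [hsymm]
  have h8 : ∑ q ∈ I, ∑ q' ∈ I.filter (fun q' => q' < q), c q q'
      = ∑ m ∈ Ico 1 N, ∑ q ∈ Ioc N (2 * N - m), c (q + m) q := by
    rw [sum_sigma', sum_sigma']
    refine sum_nbij' (fun p => ⟨p.1 - p.2, p.2⟩) (fun p => ⟨p.2 + p.1, p.2⟩) ?_ ?_ ?_ ?_ ?_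
    · rintro ⟨q, q'⟩ hq
      simp only [hI, mem_sigma, mem_filter, mem_Ioc, mem_Ico] at hq ⊢
      omega
    · rintro ⟨m, q⟩ hq
      simp only [hI, mem_sigma, mem_filter, mem_Ioc, mem_Ico] at hq ⊢
      omega
    · rintro ⟨q, q'⟩ hq
      simp only [hI, mem_sigma, mem_filter, mem_Ioc] at hq
      simp only [Sigma.mk.injEq, heq_eq_eq, and_true]
      omega
    · rintro ⟨m, q⟩ hq
      simp only [Sigma.mk.injEq, heq_eq_eq, and_true]
      omega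
    · rintro ⟨q, q'⟩ hq
      simp only [hI, mem_sigma, mem_filter, mem_Ioc] at hq
      dsimp only
      rw [Nat.add_sub_cancel' hq.2.2.le]
  rw [h6, h7, h8]
  simp only [hc]
  ring

lemma SW_sq (θ : ℝ) (N h : ℕ) (hN : 1 ≤ N) :
    ‖SW θ N h‖ ^ 2 ≤ N + 2 * ∑ m ∈ Ico 1 N, Fy N (((2 * h * m : ℕ) : ℝ) * θ) := by
  rw [SW_sq_eq]
  have hN0 : (0:ℝ) < N := by exact_mod_cast hN
  have h1 : ∀ m ∈ Ico 1 N, ∑ q ∈ Ioc N (2 * N - m),
      (ee (h * (((q + m : ℕ) : ℝ) ^ 2 * θ) - h * ((q:ℝ) ^ 2 * θ))).re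
      ≤ Fy N (((2 * h * m : ℕ) : ℝ) * θ) := by
    intro m hm
    rw [← Complex.re_sum]
    refine (Complex.re_le_norm _).trans ?_
    have h2 : ∀ q ∈ Ioc N (2 * N - m), ee (h * (((q + m : ℕ) : ℝ) ^ 2 * θ) - h * ((q:ℝ) ^ 2 * θ))
        = ee (h * (m:ℝ) ^ 2 * θ) * ee (q * (((2 * h * m : ℕ) : ℝ) * θ)) := by
      intro q _
      rw [← ee_add]
      congr 1
      push_cast
      ring
    rw [sum_congr rfl h2, ← mul_sum, norm_mul, norm_ee, one_mul]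
    refine norm_geom_le hN0 ?_
    exact_mod_cast (by omega : 2 * N - m - N ≤ N)
  have h3 := sum_le_sum h1
  linarith

/-- sum over `(0, L]` in blocks -/
lemma sum_Fy_le {θ : ℝ} {r : ℕ} (h : Approx θ r) {Y : ℝ} (hY : 0 < Y) (L : ℕ) :
    ∑ l ∈ Ioc 0 L, Fy Y ((l:ℝ) * θ)
      ≤ (2 * L / r + 1) * (2 * Y + 4 * r * (1 + Real.log r)) := by
  have hr := h.pos
  have hr0 : (0:ℝ) < r := by exact_mod_cast hr
  set b : ℕ := r / 2 + 1 with hb
  set A : ℝ := 2 * Y + 4 * r * (1 + Real.log r) with hA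
  have hA0 : 0 ≤ A := by
    have : 0 ≤ Real.log r := Real.log_natCast_nonneg r
    positivity
  have hblock : ∀ k : ℕ, ∑ l ∈ Ioc (k * b) ((k + 1) * b), Fy Y ((l:ℝ) * θ) ≤ A := by
    intro k
    have h1 := block_sum_le h hY (Ioc (k * b) ((k + 1) * b)) 0 1 (Or.inl rfl) (by
      intro d hd e he
      rw [mem_Ioc] at hd he
      have e1 : (k + 1) * b = k * b + b := by ring
      rw [e1] at hd he
      have : |(d:ℤ) - e| ≤ b - 1 := by
        rw [abs_le]; constructor <;> omega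
      omega)
    simpa using h1
  -- cover by blocks
  have hcov : ∀ K : ℕ, ∑ l ∈ Ioc 0 (K * b), Fy Y ((l:ℝ) * θ) ≤ K * A := by
    intro K
    induction K with
    | zero => simp
    | succ K ih =>
      have hsub : Ioc 0 ((K + 1) * b) = Ioc 0 (K * b) ∪ Ioc (K * b) ((K + 1) * b) := by
        rw [Ioc_union_Ioc_eq_Ioc (Nat.zero_le _) (Nat.mul_le_mul_right _ (Nat.le_succ K))]
      rw [hsub, sum_union (by
        rw [disjoint_left]
        intro x hx hx2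
        rw [mem_Ioc] at hx hx2
        omega)]
      push_cast
      have := hblock K
      linarith
  have hK : L ≤ (L / b + 1) * b := by
    have := Nat.div_add_mod L b
    have h2 := Nat.mod_lt L (by omega : 0 < b)
    nlinarith
  calc ∑ l ∈ Ioc 0 L, Fy Y ((l:ℝ) * θ)
      ≤ ∑ l ∈ Ioc 0 ((L / b + 1) * b), Fy Y ((l:ℝ) * θ) :=
        sum_le_sum_of_subset_of_nonneg (Ioc_subset_Ioc_right hK) fun _ _ _ => (Fy_pos hY _).le
    _ ≤ ((L / b + 1 : ℕ) : ℝ) * A := hcov _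
    _ ≤ (2 * L / r + 1) * A := by
        apply mul_le_mul_of_nonneg_right _ hA0
        push_cast
        have h1 : ((L / b : ℕ) : ℝ) ≤ (L:ℝ) / b := Nat.cast_div_le
        have h2 : (L:ℝ) / b ≤ L / (r / 2) := by
          apply div_le_div_of_nonneg_left (Nat.cast_nonneg _) (by positivity)
          have : r ≤ 2 * b := by omega
          have : (r:ℝ) ≤ 2 * b := by exact_mod_cast this
          linarith
        have h3 : (L:ℝ) / (r / 2) = 2 * L / r := by field_simp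
        linarith

/-- sum over products -/
lemma sum_prod_Fy_le {Y θ : ℝ} (hY : 0 < Y) (H N : ℕ) (B : ℝ)
    (hB : ∀ n : ℕ, n ≠ 0 → n ≤ 2 * H * N → tauR n ≤ B) :
    ∑ h ∈ Ioc 0 H, ∑ m ∈ Ico 1 N, Fy Y (((2 * h * m : ℕ) : ℝ) * θ)
      ≤ B * ∑ l ∈ Ioc 0 (2 * H * N), Fy Y ((l:ℝ) * θ) := by
  classical
  rw [← sum_product']
  rw [mul_sum]
  set g : ℕ × ℕ → ℕ := fun p => 2 * p.1 * p.2 with hg
  have hmaps : ∀ p ∈ Ioc 0 H ×ˢ Ico 1 N, g p ∈ Ioc 0 (2 * H * N) := by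
    rintro ⟨h, m⟩ hp
    simp only [mem_product, mem_Ioc, mem_Ico] at hp
    simp only [hg, mem_Ioc]
    refine ⟨by have := hp.1.1; have := hp.2.1; positivity, ?_⟩
    exact Nat.mul_le_mul (Nat.mul_le_mul_left 2 hp.1.2) hp.2.2.le
  rw [← sum_fiberwise_of_maps_to hmaps]
  refine sum_le_sum fun l hl => ?_
  rw [mem_Ioc] at hl
  have h1 : ∀ p ∈ (Ioc 0 H ×ˢ Ico 1 N).filter (fun p => g p = l),
      Fy Y (((2 * p.1 * p.2 : ℕ) : ℝ) * θ) = Fy Y ((l:ℝ) * θ) := by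
    intro p hp
    rw [mem_filter] at hp
    have h2 : 2 * p.1 * p.2 = l := hp.2
    rw [h2]
  rw [sum_congr rfl h1, sum_const, nsmul_eq_mul]
  apply mul_le_mul_of_nonneg_right _ (Fy_pos hY _).le
  refine le_trans ?_ (hB l (by omega) hl.2)
  unfold tauR
  norm_cast
  -- inject by the first coordinate
  refine card_le_card_of_injOn (fun p => p.1) ?_ ?_
  · rintro ⟨h, m⟩ hp
    simp only [coe_filter, mem_product, mem_Ioc, mem_Ico, Set.mem_setOf_eq, hg] at hp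
    simp only [mem_coe, Nat.mem_divisors]
    refine ⟨⟨2 * m, ?_⟩, by omega⟩
    rw [← hp.2]; ring
  · rintro ⟨h, m⟩ hp ⟨h', m'⟩ hp' heq
    simp only [coe_filter, mem_product, mem_Ioc, mem_Ico, Set.mem_setOf_eq, hg] at hp hp'
    simp only at heq
    subst heq
    have h2 : 2 * h * m = 2 * h * m' := hp.2.trans hp'.2.symm
    have h3 : 0 < 2 * h := by have := hp.1.1.1; positivity
    have := Nat.eq_of_mul_eq_mul_left h3 h2
    rw [this]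

/-- **Mean square of the Weyl sums.** -/
theorem weyl_mean {ε : ℝ} (hε : 0 < ε) : ∃ C : ℝ, 0 < C ∧ ∀ (θ : ℝ) (N H : ℕ), Approx θ N →
    1 ≤ H → ∑ h ∈ Ioc 0 H, ‖SW θ N h‖ ^ 2 ≤ C * ((H:ℝ) * N) ^ (1 + ε) := by
  obtain ⟨C1, hC1, hC1'⟩ := tauR_le_rpow (half_pos hε)
  -- log bound
  set C2 : ℝ := 1 + 2 / ε with hC2
  refine ⟨1 + 2 * (C1 * 2 ^ (ε / 2)) * (5 * (6 * C2)), by positivity, ?_⟩
  intro θ N H hA hH
  have hN := hA.pos
  have hN1 : (1:ℝ) ≤ N := by exact_mod_cast hN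
  have hN0 : (0:ℝ) < N := by linarith
  have hH1 : (1:ℝ) ≤ H := by exact_mod_cast hH
  set Z : ℝ := (H:ℝ) * N with hZ
  have hZ1 : 1 ≤ Z := by rw [hZ]; nlinarith
  have hZ0 : 0 < Z := by linarith
  have hNZ : (N:ℝ) ≤ Z := by rw [hZ]; nlinarith
  have hlog : 1 + Real.log N ≤ C2 * Z ^ (ε / 2) := by
    have h1 : Real.log N ≤ (N:ℝ) ^ (ε / 2) / (ε / 2) :=
      Real.log_le_rpow_div hN0.le (half_pos hε)
    have h2 : (N:ℝ) ^ (ε / 2) ≤ Z ^ (ε / 2) := Real.rpow_le_rpow hN0.le hNZ (by positivity)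
    have h3 : (1:ℝ) ≤ Z ^ (ε / 2) := Real.one_le_rpow hZ1 (by positivity)
    have h4 : (N:ℝ) ^ (ε / 2) / (ε / 2) ≤ 2 / ε * Z ^ (ε / 2) := by
      rw [div_le_iff₀ (half_pos hε)]
      have : 2 / ε * Z ^ (ε / 2) * (ε / 2) = Z ^ (ε / 2) := by field_simp
      linarith
    rw [hC2]
    linarith
  have htau : ∀ n : ℕ, n ≠ 0 → n ≤ 2 * H * N → tauR n ≤ (C1 * 2 ^ (ε / 2)) * Z ^ (ε / 2) := by
    intro n hn hn2
    refine (hC1' n hn).trans ?_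
    have h1 : (n:ℝ) ≤ 2 * Z := by
      have : (n:ℝ) ≤ ((2 * H * N : ℕ) : ℝ) := by exact_mod_cast hn2
      push_cast at this
      rw [hZ]; linarith
    have h2 : (n:ℝ) ^ (ε / 2) ≤ (2 * Z) ^ (ε / 2) :=
      Real.rpow_le_rpow (Nat.cast_nonneg _) h1 (by positivity)
    rw [Real.mul_rpow (by norm_num) hZ0.le] at h2
    calc C1 * (n:ℝ) ^ (ε / 2) ≤ C1 * ((2:ℝ) ^ (ε / 2) * Z ^ (ε / 2)) := by
          gcongr
      _ = _ := by ring
  have h1 : ∑ h ∈ Ioc 0 H, ‖SW θ N h‖ ^ 2 ≤ ∑ h ∈ Ioc 0 H,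
      ((N:ℝ) + 2 * ∑ m ∈ Ico 1 N, Fy N (((2 * h * m : ℕ) : ℝ) * θ)) :=
    sum_le_sum fun h _ => SW_sq θ N h hN
  rw [sum_add_distrib, ← mul_sum, sum_const, nsmul_eq_mul, Nat.card_Ioc, Nat.sub_zero] at h1
  have h2 := sum_prod_Fy_le (θ := θ) hN0 H N _ htau
  have h3 := sum_Fy_le hA hN0 (2 * H * N)
  have hZe0 : 0 ≤ Z ^ (ε / 2) := by positivity
  have h4 : (2 * ((2 * H * N : ℕ) : ℝ) / N + 1) * (2 * (N:ℝ) + 4 * N * (1 + Real.log N))
      ≤ 5 * (6 * C2) * (Z * Z ^ (ε / 2)) := by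
    have e1 : 2 * ((2 * H * N : ℕ) : ℝ) / N = 4 * H := by
      push_cast; field_simp; norm_num
    rw [e1]
    have hl0 : 0 ≤ Real.log N := Real.log_natCast_nonneg N
    have h5 : 2 * (N:ℝ) + 4 * N * (1 + Real.log N) ≤ 6 * N * (1 + Real.log N) := by nlinarith
    have h6 : (4 * (H:ℝ) + 1) ≤ 5 * H := by linarith
    calc (4 * (H:ℝ) + 1) * (2 * (N:ℝ) + 4 * N * (1 + Real.log N))
        ≤ (5 * H) * (6 * N * (1 + Real.log N)) := mul_le_mul h6 h5 (by positivity) (by positivity)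
      _ = 30 * Z * (1 + Real.log N) := by rw [hZ]; ring
      _ ≤ 30 * Z * (C2 * Z ^ (ε / 2)) := mul_le_mul_of_nonneg_left hlog (by positivity)
      _ = _ := by ring
  have h5 : Z ≤ Z ^ (1 + ε) := by
    calc Z = Z ^ (1:ℝ) := (Real.rpow_one Z).symm
      _ ≤ Z ^ (1 + ε) := Real.rpow_le_rpow_of_exponent_le hZ1 (by linarith)
  have h6 : Z * Z ^ (ε / 2) * Z ^ (ε / 2) = Z ^ (1 + ε) := by
    have : Z ^ (1 + ε) = Z ^ (1:ℝ) * Z ^ (ε / 2) * Z ^ (ε / 2) := by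
      rw [← Real.rpow_add hZ0, ← Real.rpow_add hZ0]; congr 1; ring
    rw [this, Real.rpow_one]
  have hB0 : 0 ≤ (C1 * 2 ^ (ε / 2)) * Z ^ (ε / 2) := by positivity
  have h7 : ∑ h ∈ Ioc 0 H, ∑ m ∈ Ico 1 N, Fy N (((2 * h * m : ℕ) : ℝ) * θ)
      ≤ (C1 * 2 ^ (ε / 2)) * (5 * (6 * C2)) * Z ^ (1 + ε) := by
    calc _ ≤ (C1 * 2 ^ (ε / 2)) * Z ^ (ε / 2) * (5 * (6 * C2) * (Z * Z ^ (ε / 2))) :=
          h2.trans (mul_le_mul_of_nonneg_left (h3.trans h4) hB0)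
      _ = (C1 * 2 ^ (ε / 2)) * (5 * (6 * C2)) * (Z * Z ^ (ε / 2) * Z ^ (ε / 2)) := by ring
      _ = _ := by rw [h6]
  calc ∑ h ∈ Ioc 0 H, ‖SW θ N h‖ ^ 2 ≤ Z + 2 * ∑ h ∈ Ioc 0 H, ∑ m ∈ Ico 1 N,
        Fy N (((2 * h * m : ℕ) : ℝ) * θ) := h1
    _ ≤ Z ^ (1 + ε) + 2 * ((C1 * 2 ^ (ε / 2)) * (5 * (6 * C2)) * Z ^ (1 + ε)) := by linarith
    _ = _ := by ring

end Pool.Agent.QSq
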