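import Pool.Agent.QSq.Local
import Pool.Agent.QSq.Weyl

/-!
A trigonometric minorant and the measure of the set of `η` avoided by `q² θ`, `N < q ≤ 2 N`.
-/

set_option autoImplicit false

namespace Pool.Agent.QSq

open MeasureTheory Finset

open scoped Pointwise

/-! ### Parseval -/

lemma parsevalT (A : Finset ℤ) (a : ℤ → ℂ) :
    ∫ x : T, ‖∑ h ∈ A, a h * ch h x‖ ^ 2 = ∑ h ∈ A, ‖a h‖ ^ 2 := by
  have hconj : ∀ (h : ℤ) (x : T), (starRingEnd ℂ) (ch h x) = ch (-h) x := by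
    intro h x; unfold ch; exact fourier_neg.symm
  have h1 : ∀ x : T, ((‖∑ h ∈ A, a h * ch h x‖ ^ 2 : ℝ) : ℂ)
      = ∑ h ∈ A, ∑ k ∈ A, a h * (starRingEnd ℂ) (a k) * ch (h - k) x := by
    intro x
    have h2 : ((‖∑ h ∈ A, a h * ch h x‖ ^ 2 : ℝ) : ℂ)
        = (∑ h ∈ A, a h * ch h x) * (starRingEnd ℂ) (∑ h ∈ A, a h * ch h x) := by
      rw [Complex.mul_conj, Complex.normSq_eq_norm_sq]
    rw [h2, map_sum, sum_mul_sum]
    refine sum_congr rfl fun h _ => sum_congr rfl fun k _ => ?_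
    rw [map_mul, hconj, sub_eq_add_neg, ch_add_left]
    ring
  have hint : ∀ (c : ℂ) (h : ℤ), Integrable (fun x : T => c * ch h x) (volume : Measure T) := by
    intro c h
    refine Integrable.of_bound ((measurable_ch h).const_mul c).aestronglyMeasurable ‖c‖ ?_
    refine Filter.Eventually.of_forall fun x => ?_
    rw [norm_mul, norm_ch, mul_one]
  have h3 : (((∫ x : T, ‖∑ h ∈ A, a h * ch h x‖ ^ 2 : ℝ)) : ℂ) = ((∑ h ∈ A, ‖a h‖ ^ 2 : ℝ) : ℂ) := by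
    rw [← integral_complex_ofReal]
    simp_rw [h1]
    rw [integral_finsetSum _ (fun h _ => integrable_finsetSum _ fun k _ => hint _ _)]
    push_cast
    refine sum_congr rfl fun h hh => ?_
    rw [integral_finsetSum _ (fun k _ => hint _ _)]
    rw [sum_eq_single h]
    · rw [integral_const_mul, sub_self]
      have : ∀ x : T, ch 0 x = 1 := ch_zero_left
      simp_rw [this]
      rw [integral_const, vol_real_univ, one_smul, mul_one, Complex.mul_conj,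
        Complex.normSq_eq_norm_sq]
      push_cast
      rfl
    · intro k _ hk
      rw [integral_const_mul, integral_ch_ne (h - k) (sub_ne_zero.2 (Ne.symm hk)), mul_zero]
    · intro hh2; exact absurd hh hh2
  exact_mod_cast h3

/-! ### The kernel -/

/-- number of pairs with difference `h` -/
def c2 (M : ℕ) (h : ℤ) : ℕ :=
  ((range M ×ˢ range M).filter (fun p => (p.1:ℤ) - p.2 = h)).card

/-- number of quadruples with alternating sum `h` -/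
def c4 (M : ℕ) (h : ℤ) : ℕ :=
  (((range M ×ˢ range M) ×ˢ (range M ×ˢ range M)).filter
    (fun p => ((p.1.1:ℤ) - p.1.2) + (p.2.1 - p.2.2) = h)).card

lemma c2_zero (M : ℕ) : c2 M 0 = M := by
  unfold c2
  have : ((range M ×ˢ range M).filter (fun p => (p.1:ℤ) - p.2 = 0)) = (range M).image (fun i => (i, i)) := by
    ext ⟨i, j⟩
    simp only [mem_filter, mem_product, mem_range, mem_image, Prod.mk.injEq]
    constructor
    · rintro ⟨⟨h1, h2⟩, h3⟩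
      exact ⟨i, h1, rfl, by omega⟩
    · rintro ⟨k, h1, rfl, rfl⟩
      exact ⟨⟨h1, h1⟩, by omega⟩
  rw [this, card_image_of_injective _ (fun a b h => (Prod.mk.inj h).1), card_range]

lemma c2_le (M : ℕ) (h : ℤ) : c2 M h ≤ M := by
  unfold c2
  conv_rhs => rw [← card_range M]
  refine card_le_card_of_injOn (fun p => p.1) ?_ ?_
  · rintro ⟨i, j⟩ hp
    simp only [coe_filter, mem_product, mem_range, Set.mem_ofPred_eq] at hp
    simpa using hp.1.1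
  · rintro ⟨i, j⟩ hp ⟨i', j'⟩ hp' heq
    simp only [coe_filter, mem_product, mem_range, Set.mem_ofPred_eq] at hp hp'
    simp only at heq
    subst heq
    rw [Prod.mk.injEq]
    exact ⟨rfl, by omega⟩

lemma c4_le (M : ℕ) (h : ℤ) : c4 M h ≤ M ^ 3 := by
  unfold c4
  have : M ^ 3 = ((range M ×ˢ range M) ×ˢ range M).card := by
    rw [card_product, card_product, card_range]; ring
  rw [this]
  refine card_le_card_of_injOn (fun p => (p.1, p.2.1)) ?_ ?_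
  · rintro ⟨⟨i, j⟩, ⟨k, l⟩⟩ hp
    simp only [coe_filter, mem_product, mem_range, Set.mem_ofPred_eq] at hp
    simp only [mem_coe, mem_product, mem_range]
    exact ⟨hp.1.1, hp.1.2.1⟩
  · rintro ⟨⟨i, j⟩, ⟨k, l⟩⟩ hp ⟨⟨i', j'⟩, ⟨k', l'⟩⟩ hp' heq
    simp only [coe_filter, mem_product, mem_range, Set.mem_ofPred_eq] at hp hp'
    simp only [Prod.mk.injEq] at heq
    obtain ⟨⟨rfl, rfl⟩, rfl⟩ := heq
    simp only [Prod.mk.injEq, true_and, and_self]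
    omega

lemma c4_zero (M : ℕ) (hM : 1 ≤ M) : (M:ℝ) ^ 3 / 2 ≤ c4 M 0 := by
  have h1 := le_card_add_mul_addEnergy (range M) (range M)
  have h2 : addEnergy (range M) (range M) = c4 M 0 := by
    unfold addEnergy c4
    congr 1
    apply filter_congr
    rintro ⟨⟨i, j⟩, ⟨k, l⟩⟩ -
    dsimp only
    constructor <;> intro h <;> omega
  rw [h2, card_range] at h1
  have h3 : (range M + range M).card ≤ 2 * M := by
    conv_rhs => rw [← card_range (2 * M)]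
    apply card_le_card
    intro x hx
    rw [mem_add] at hx
    obtain ⟨a, ha, b, hb, rfl⟩ := hx
    rw [mem_range] at *
    omega
  have h4 : M ^ 2 * M ^ 2 ≤ 2 * M * c4 M 0 := h1.trans (Nat.mul_le_mul_right _ h3)
  have h5 : (M:ℝ) ^ 2 * M ^ 2 ≤ 2 * M * c4 M 0 := by exact_mod_cast h4
  have hM0 : (0:ℝ) < M := by exact_mod_cast hM
  have h6 : (M:ℝ) * (M ^ 3) ≤ M * (2 * c4 M 0) := by nlinarith
  have := le_of_mul_le_mul_left h6 hM0
  linarith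

lemma Fej_trig (M : ℕ) (x : T) :
    ((Fej M x : ℝ) : ℂ) = ∑ h ∈ Icc (-(2 * M : ℤ)) (2 * M), (c2 M h : ℂ) * ch h x := by
  rw [Fej_eq, ← sum_product', ← sum_fiberwise_of_maps_to (t := Icc (-(2 * M : ℤ)) (2 * M))
    (g := fun p : ℕ × ℕ => (p.1:ℤ) - p.2)]
  · refine sum_congr rfl fun h _ => ?_
    rw [sum_congr rfl (g := fun _ => ch h x)]
    · rw [sum_const, nsmul_eq_mul]; rfl
    · intro p hp
      rw [mem_filter] at hp
      rw [hp.2]
  · rintro ⟨i, j⟩ hp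
    simp only [mem_product, mem_range] at hp
    rw [mem_Icc]
    constructor <;> dsimp only <;> omega

lemma Fej_sq_trig (M : ℕ) (x : T) :
    ((Fej M x ^ 2 : ℝ) : ℂ) = ∑ h ∈ Icc (-(2 * M : ℤ)) (2 * M), (c4 M h : ℂ) * ch h x := by
  have h1 : ((Fej M x ^ 2 : ℝ) : ℂ) = ∑ p ∈ (range M ×ˢ range M) ×ˢ (range M ×ˢ range M),
      ch (((p.1.1:ℤ) - p.1.2) + (p.2.1 - p.2.2)) x := by
    push_cast
    rw [Fej_eq, ← sum_product', sq, sum_mul_sum, ← sum_product']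
    refine sum_congr rfl fun p _ => ?_
    rw [ch_add_left]
  rw [h1, ← sum_fiberwise_of_maps_to (t := Icc (-(2 * M : ℤ)) (2 * M))
    (g := fun p : (ℕ × ℕ) × (ℕ × ℕ) => ((p.1.1:ℤ) - p.1.2) + (p.2.1 - p.2.2))]
  · refine sum_congr rfl fun h _ => ?_
    rw [sum_congr rfl (g := fun _ => ch h x)]
    · rw [sum_const, nsmul_eq_mul]; rfl
    · intro p hp
      rw [mem_filter] at hp
      rw [hp.2]
  · rintro ⟨⟨i, j⟩, ⟨k, l⟩⟩ hp
    simp only [mem_product, mem_range] at hp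
    rw [mem_Icc]
    constructor <;> dsimp only <;> omega

lemma Fej_upper (M : ℕ) (x : T) : 4 * ‖x‖ ^ 2 * Fej M x ≤ 1 := by
  induction x using QuotientAddGroup.induction_on with
  | H y =>
  have h0 : ‖(QuotientAddGroup.mk y : T)‖ = Pool.Agent.ANT.nn y := UnitAddCircle.norm_eq
  have h1 := Pool.Agent.ANT.four_nn_le y
  have hch : ∀ j : ℕ, ch (j:ℤ) (QuotientAddGroup.mk y : T) = Pool.Agent.ANT.ee y ^ j := by
    intro j
    rw [← Pool.Agent.ANT.ee_nat_mul]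
    unfold ch Pool.Agent.ANT.ee
    have := fourier_coe_apply (T := (1:ℝ)) (n := (j:ℤ)) (x := y)
    refine this.trans ?_
    congr 1
    push_cast
    ring
  set z := Pool.Agent.ANT.ee y with hz
  have hzn : ‖z‖ = 1 := Pool.Agent.ANT.norm_ee y
  unfold Fej
  rw [sum_congr rfl (fun j _ => hch j), h0]
  have h2 := mul_neg_geom_sum z M
  have h3 : ‖z - 1‖ * ‖∑ i ∈ range M, z ^ i‖ ≤ 2 := by
    rw [norm_sub_rev, ← norm_mul, h2]
    refine (norm_sub_le _ _).trans ?_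
    rw [norm_one, norm_pow, hzn, one_pow]
    norm_num
  have h4 : 4 * Pool.Agent.ANT.nn y * ‖∑ i ∈ range M, z ^ i‖ ≤ 2 :=
    (mul_le_mul_of_nonneg_right h1 (norm_nonneg _)).trans h3
  have h5 : 0 ≤ Pool.Agent.ANT.nn y * ‖∑ i ∈ range M, z ^ i‖ :=
    mul_nonneg (Pool.Agent.ANT.nn_nonneg y) (norm_nonneg _)
  have h6 : Pool.Agent.ANT.nn y * ‖∑ i ∈ range M, z ^ i‖ ≤ 1 / 2 := by linarith
  have h7 : 4 * Pool.Agent.ANT.nn y ^ 2 * ‖∑ i ∈ range M, z ^ i‖ ^ 2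
      = 4 * (Pool.Agent.ANT.nn y * ‖∑ i ∈ range M, z ^ i‖) ^ 2 := by ring
  rw [h7]
  nlinarith

/-- coefficients of the minorant -/
noncomputable def pc (M : ℕ) (δ : ℝ) (h : ℤ) : ℝ := 16 * δ ^ 2 * c4 M h - c2 M h

lemma kernel_trig (M : ℕ) (δ : ℝ) (x : T) :
    ((16 * δ ^ 2 * Fej M x ^ 2 - Fej M x : ℝ) : ℂ)
      = ∑ h ∈ Icc (-(2 * M : ℤ)) (2 * M), (pc M δ h : ℂ) * ch h x := by
  have h1 := Fej_trig M x
  have h2 := Fej_sq_trig M x
  push_cast at h2 ⊢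
  rw [h2, h1, mul_sum, ← sum_sub_distrib]
  refine sum_congr rfl fun h _ => ?_
  unfold pc
  push_cast
  ring

lemma kernel_nonpos (M : ℕ) (δ : ℝ) (hδ : 0 < δ) (x : T) (hx : 2 * δ ≤ ‖x‖) :
    16 * δ ^ 2 * Fej M x ^ 2 - Fej M x ≤ 0 := by
  have h1 := Fej_upper M x
  have h2 := Fej_nonneg M x
  have h3 : 16 * δ ^ 2 * Fej M x ≤ 1 := by
    have : 16 * δ ^ 2 ≤ 4 * ‖x‖ ^ 2 := by nlinarith
    exact (mul_le_mul_of_nonneg_right this h2).trans h1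
  nlinarith

lemma pc_zero_ge (M : ℕ) (δ : ℝ) (hM1 : 1 ≤ M) (hM : 1 ≤ 2 * δ * M) :
    4 * δ ^ 2 * (M:ℝ) ^ 3 ≤ pc M δ 0 := by
  unfold pc
  rw [c2_zero]
  have h1 := c4_zero M hM1
  have hM0 : (1:ℝ) ≤ M := by exact_mod_cast hM1
  have h2 : 8 * δ ^ 2 * (M:ℝ) ^ 3 ≤ 16 * δ ^ 2 * c4 M 0 := by
    have : 0 ≤ δ ^ 2 := sq_nonneg δ
    nlinarith
  have h3 : (M:ℝ) ≤ 4 * δ ^ 2 * (M:ℝ) ^ 3 := by
    have h4 : 1 ≤ (2 * δ * M) ^ 2 := one_le_pow₀ hM
    have h5 : 4 * δ ^ 2 * (M:ℝ) ^ 3 = (2 * δ * M) ^ 2 * M := by ring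
    rw [h5]
    nlinarith
  linarith

lemma pc_abs_le (M : ℕ) (δ : ℝ) (hM1 : 1 ≤ M) (hM : 1 ≤ 2 * δ * M) (h : ℤ) :
    |pc M δ h| ≤ 4 * pc M δ 0 := by
  have h0 := pc_zero_ge M δ hM1 hM
  have hM0 : (1:ℝ) ≤ M := by exact_mod_cast hM1
  have h3 : (M:ℝ) ≤ 4 * δ ^ 2 * (M:ℝ) ^ 3 := by
    have h4 : 1 ≤ (2 * δ * M) ^ 2 := one_le_pow₀ hM
    have h5 : 4 * δ ^ 2 * (M:ℝ) ^ 3 = (2 * δ * M) ^ 2 * M := by ring
    rw [h5]
    nlinarith
  have h1 : (c2 M h : ℝ) ≤ M := by exact_mod_cast c2_le M h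
  have h2 : (c4 M h : ℝ) ≤ (M:ℝ) ^ 3 := by exact_mod_cast c4_le M h
  have h4 : (0:ℝ) ≤ c2 M h := Nat.cast_nonneg _
  have h5 : (0:ℝ) ≤ 16 * δ ^ 2 * c4 M h := by positivity
  have h6 : 16 * δ ^ 2 * (c4 M h : ℝ) ≤ 16 * δ ^ 2 * (M:ℝ) ^ 3 :=
    mul_le_mul_of_nonneg_left h2 (by positivity)
  have h7 : 0 ≤ 4 * δ ^ 2 * (M:ℝ) ^ 3 := by positivity
  rw [abs_le]
  unfold pc at h0 ⊢
  constructor <;> linarith

/-! ### The measure of the bad set -/

/-- the sum of characters -/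
noncomputable def SZ (θ : ℝ) (N : ℕ) (h : ℤ) : ℂ :=
  ∑ q ∈ Ioc N (2 * N), ch h (((q:ℤ) ^ 2) • ((θ : ℝ) : T))

lemma SZ_natCast (θ : ℝ) (N h : ℕ) : SZ θ N (h:ℤ) = SW θ N h := by
  unfold SZ SW
  refine sum_congr rfl fun q _ => ?_
  rw [← AddCircle.coe_zsmul]
  unfold ch Pool.Agent.ANT.ee
  rw [fourier_coe_apply]
  congr 1
  rw [zsmul_eq_mul]
  push_cast
  ring

lemma SZ_neg (θ : ℝ) (N : ℕ) (h : ℤ) : ‖SZ θ N (-h)‖ = ‖SZ θ N h‖ := by
  have : SZ θ N (-h) = (starRingEnd ℂ) (SZ θ N h) := by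
    unfold SZ
    rw [map_sum]
    refine sum_congr rfl fun q _ => ?_
    unfold ch; exact fourier_neg
  rw [this, Complex.norm_conj]

lemma sum_symm (M : ℕ) (f : ℤ → ℝ) (hf : ∀ h, f (-h) = f h) :
    ∑ h ∈ (Icc (-(2 * M : ℤ)) (2 * M)).erase 0, f h = 2 * ∑ h ∈ Ioc 0 (2 * M), f (h:ℤ) := by
  have h1 : (Icc (-(2 * M : ℤ)) (2 * M)).erase 0
      = (Ioc 0 (2 * M)).image (fun h : ℕ => (h:ℤ)) ∪ (Ioc 0 (2 * M)).image (fun h : ℕ => -(h:ℤ)) := by
    ext x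
    simp only [mem_erase, mem_Icc, mem_union, mem_image, mem_Ioc]
    constructor
    · rintro ⟨h1, h2, h3⟩
      rcases lt_or_gt_of_ne h1 with h | h
      · right; exact ⟨x.natAbs, by omega, by omega⟩
      · left; exact ⟨x.natAbs, by omega, by omega⟩
    · rintro (⟨k, h1, rfl⟩ | ⟨k, h1, rfl⟩)
      · omega
      · omega
  rw [h1, sum_union, sum_image, sum_image]
  · have h2 : ∑ h ∈ Ioc 0 (2 * M), f (-(h:ℤ)) = ∑ h ∈ Ioc 0 (2 * M), f (h:ℤ) :=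
      sum_congr rfl fun h _ => hf h
    rw [h2]
    ring
  · intro a _ b _ h
    have h : -(a:ℤ) = -(b:ℤ) := h
    omega
  · intro a _ b _ h
    have h : (a:ℤ) = (b:ℤ) := h
    omega
  · rw [disjoint_left]
    intro x hx hx2
    simp only [mem_image, mem_Ioc] at hx hx2
    obtain ⟨a, ha, rfl⟩ := hx
    obtain ⟨b, hb, hb2⟩ := hx2
    omega

/-- the set of shifts avoided by `q² θ` for `N < q ≤ 2 N` -/
def badE (θ : ℝ) (N : ℕ) (r : ℝ) : Set T :=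
  {η | ∀ q ∈ Ioc N (2 * N), r ≤ ‖((q:ℤ) ^ 2) • ((θ : ℝ) : T) - η‖}

lemma isClosed_badE (θ : ℝ) (N : ℕ) (r : ℝ) : IsClosed (badE θ N r) := by
  unfold badE
  have : {η : T | ∀ q ∈ Ioc N (2 * N), r ≤ ‖((q:ℤ) ^ 2) • ((θ : ℝ) : T) - η‖}
      = ⋂ q ∈ Ioc N (2 * N), {η : T | r ≤ ‖((q:ℤ) ^ 2) • ((θ : ℝ) : T) - η‖} := by
    ext η; simp
  rw [this]
  refine isClosed_biInter fun q _ => ?_
  exact isClosed_le continuous_const (by fun_prop)

theorem bad_measure (θ : ℝ) (N M : ℕ) (δ : ℝ) (hN : 1 ≤ N) (hδ : 0 < δ) (hM1 : 1 ≤ M)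
    (hM : 1 ≤ 2 * δ * M) :
    (volume : Measure T).real (badE θ N (2 * δ))
      ≤ 32 / (N:ℝ) ^ 2 * ∑ h ∈ Ioc 0 (2 * M), ‖SW θ N h‖ ^ 2 := by
  set p0 : ℝ := pc M δ 0 with hp0
  have hN0 : (0:ℝ) < N := by exact_mod_cast hN
  have hM0 : (0:ℝ) < M := by exact_mod_cast hM1
  have hp0pos : 0 < p0 := lt_of_lt_of_le (by positivity) (pc_zero_ge M δ hM1 hM)
  set K := Icc (-(2 * M : ℤ)) (2 * M) with hK
  set a : ℤ → ℂ := fun h => (pc M δ (-h) : ℂ) * SZ θ N (-h) with ha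
  set G : T → ℂ := fun η => ∑ h ∈ K.erase 0, a h * ch h η with hG
  have hKneg : ∀ g : ℤ → ℂ, ∑ h ∈ K, g (-h) = ∑ h ∈ K, g h := by
    intro g
    refine sum_nbij' (fun h => -h) (fun h => -h) ?_ ?_ ?_ ?_ ?_
    · intro h hh; rw [hK, mem_Icc] at hh ⊢; omega
    · intro h hh; rw [hK, mem_Icc] at hh ⊢; omega
    · intro h _; simp
    · intro h _; simp
    · intro h _; rfl
  have h0K : (0:ℤ) ∈ K := by rw [hK, mem_Icc]; omega
  have hSZ0 : SZ θ N 0 = N := by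
    unfold SZ
    simp_rw [ch_zero_left]
    rw [sum_const, nsmul_eq_mul, mul_one, Nat.card_Ioc]
    congr 1
    omega
  have hkey : ∀ η : T, ((∑ q ∈ Ioc N (2 * N), (16 * δ ^ 2 * Fej M (((q:ℤ) ^ 2) • ((θ : ℝ) : T) - η) ^ 2
      - Fej M (((q:ℤ) ^ 2) • ((θ : ℝ) : T) - η)) : ℝ) : ℂ) = p0 * N + G η := by
    intro η
    push_cast
    have h1 : ∀ q ∈ Ioc N (2 * N), (16 * (δ:ℂ) ^ 2 * (Fej M (((q:ℤ) ^ 2) • ((θ : ℝ) : T) - η) : ℂ) ^ 2
      - (Fej M (((q:ℤ) ^ 2) • ((θ : ℝ) : T) - η) : ℂ)) = ∑ h ∈ K, (pc M δ h : ℂ) *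
        (ch h (((q:ℤ) ^ 2) • ((θ : ℝ) : T)) * ch (-h) η) := by
      intro q _
      have := kernel_trig M δ (((q:ℤ) ^ 2) • ((θ : ℝ) : T) - η)
      push_cast at this
      rw [this]
      refine sum_congr rfl fun h _ => ?_
      rw [sub_eq_add_neg, ch_add_right, ch_neg_right]
    rw [sum_congr rfl h1, sum_comm]
    have h2 : ∀ h ∈ K, ∑ q ∈ Ioc N (2 * N), (pc M δ h : ℂ) *
        (ch h (((q:ℤ) ^ 2) • ((θ : ℝ) : T)) * ch (-h) η) = a (-h) * ch (-h) η := by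
      intro h _
      rw [← mul_sum, ← sum_mul]
      simp only [ha, neg_neg]
      unfold SZ
      ring
    rw [sum_congr rfl h2, hKneg (fun h => a h * ch h η), ← add_sum_erase _ _ h0K]
    simp only [ha, neg_zero, ch_zero_left, mul_one, hG]
    rw [hSZ0]
  have hlow : ∀ η ∈ badE θ N (2 * δ), p0 * N ≤ ‖G η‖ := by
    intro η hη
    have h1 : (∑ q ∈ Ioc N (2 * N), (16 * δ ^ 2 * Fej M (((q:ℤ) ^ 2) • ((θ : ℝ) : T) - η) ^ 2
      - Fej M (((q:ℤ) ^ 2) • ((θ : ℝ) : T) - η)) : ℝ) ≤ 0 := by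
      refine sum_nonpos fun q hq => kernel_nonpos M δ hδ _ (hη q hq)
    have h2 := congrArg Complex.re (hkey η)
    rw [Complex.ofReal_re, Complex.add_re] at h2
    have h3 : ((p0:ℂ) * (N:ℂ)).re = p0 * N := by
      rw [← Complex.ofReal_natCast, ← Complex.ofReal_mul, Complex.ofReal_re]
    rw [h3] at h2
    have h4 := Complex.abs_re_le_norm (G η)
    have h5 := neg_le_abs (G η).re
    linarith
  -- Chebyshev
  have hGm : Measurable G := by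
    simp only [hG]
    exact Finset.measurable_sum _ fun h _ => (measurable_ch h).const_mul _
  set Cb : ℝ := ∑ h ∈ K.erase 0, ‖a h‖ with hCb
  have hGb : ∀ η, ‖G η‖ ≤ Cb := by
    intro η
    refine (norm_sum_le _ _).trans (sum_le_sum fun h _ => ?_)
    rw [norm_mul, norm_ch, mul_one]
  have hGi : Integrable (fun η => ‖G η‖ ^ 2) (volume : Measure T) := by
    refine Integrable.of_bound (hGm.norm.pow_const 2).aestronglyMeasurable (Cb ^ 2) ?_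
    refine Filter.Eventually.of_forall fun η => ?_
    rw [Real.norm_of_nonneg (by positivity)]
    exact pow_le_pow_left₀ (norm_nonneg _) (hGb η) 2
  have hms := (isClosed_badE θ N (2 * δ)).measurableSet
  have h1 : (p0 * N) ^ 2 * (volume : Measure T).real (badE θ N (2 * δ)) ≤ ∫ η : T, ‖G η‖ ^ 2 := by
    calc (p0 * N) ^ 2 * (volume : Measure T).real (badE θ N (2 * δ))
        = ∫ _η in badE θ N (2 * δ), (p0 * N) ^ 2 := by
          rw [setIntegral_const, smul_eq_mul, mul_comm]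
      _ ≤ ∫ η in badE θ N (2 * δ), ‖G η‖ ^ 2 := by
          refine setIntegral_mono_on ?_ hGi.integrableOn hms ?_
          · exact integrableOn_const (measure_ne_top _ _)
          · intro η hη
            exact pow_le_pow_left₀ (by positivity) (hlow η hη) 2
      _ ≤ ∫ η : T, ‖G η‖ ^ 2 := setIntegral_le_integral hGi
          (Filter.Eventually.of_forall fun η => by positivity)
  have h2 : ∫ η : T, ‖G η‖ ^ 2 = ∑ h ∈ K.erase 0, ‖a h‖ ^ 2 := parsevalT _ _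
  have h3 : ∑ h ∈ K.erase 0, ‖a h‖ ^ 2 ≤ ∑ h ∈ K.erase 0, (4 * p0) ^ 2 * ‖SZ θ N h‖ ^ 2 := by
    refine sum_le_sum fun h _ => ?_
    simp only [ha]
    rw [norm_mul, mul_pow, SZ_neg]
    refine mul_le_mul_of_nonneg_right ?_ (by positivity)
    rw [Complex.norm_real]
    exact pow_le_pow_left₀ (norm_nonneg _) (pc_abs_le M δ hM1 hM _) 2
  have h4 : ∑ h ∈ K.erase 0, (4 * p0) ^ 2 * ‖SZ θ N h‖ ^ 2
      = (4 * p0) ^ 2 * (2 * ∑ h ∈ Ioc 0 (2 * M), ‖SW θ N h‖ ^ 2) := by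
    rw [← mul_sum, hK, sum_symm M (fun h => ‖SZ θ N h‖ ^ 2) (fun h => by
      show ‖SZ θ N (-h)‖ ^ 2 = ‖SZ θ N h‖ ^ 2
      rw [SZ_neg])]
    simp only [SZ_natCast]
  have h5 : (p0 * N) ^ 2 * (volume : Measure T).real (badE θ N (2 * δ))
      ≤ (p0 * N) ^ 2 * (32 / (N:ℝ) ^ 2 * ∑ h ∈ Ioc 0 (2 * M), ‖SW θ N h‖ ^ 2) := by
    calc _ ≤ (4 * p0) ^ 2 * (2 * ∑ h ∈ Ioc 0 (2 * M), ‖SW θ N h‖ ^ 2) :=
          h1.trans (h2.le.trans (h3.trans h4.le))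
      _ = _ := by field_simp; ring
  exact le_of_mul_le_mul_left h5 (by positivity)

end Pool.Agent.QSq
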